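import Pool.Agent.H59.KY.Final

/-!
Alternating words in two letters (shared between KE/Rank2.lean and KE/Main.lean).
-/

set_option autoImplicit false

open scoped Classical

namespace Pool.Agent.H59.KY

variable {C : Cartan}

/-- the alternating word of length `n` in `k`, `k'` whose LAST letter is `k` -/
def alt (k k' : C.I) : ℕ → List C.I
  | 0 => []
  | n + 1 => alt k' k n ++ [k]

theorem alt_zero (k k' : C.I) : alt k k' 0 = [] := rfl

theorem alt_succ (k k' : C.I) (n : ℕ) : alt k k' (n + 1) = alt k' k n ++ [k] := rfl

theorem alt_length (n : ℕ) : ∀ k k' : C.I, (alt k k' n).length = n := by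
  induction n with
  | zero => intro k k'; rfl
  | succ n ih => intro k k'; rw [alt_succ, List.length_append, ih]; rfl

end Pool.Agent.H59.KY
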