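import Pool.Agent.H38.KE.Main

/-!
Every element of `B_λ` has exactly one key, the Demazure crystal does not depend on the reduced
word, and the keys of corresponding elements are inverse to each other.
-/

set_option autoImplicit false

open scoped Classical

namespace Pool.Agent.H59.KY

variable {C : Cartan} (F : Family C)

theorem isW_iff (w : C.Aut) : C.IsW w ↔ w ∈ C.W := by
  constructor
  · rintro ⟨l, rfl⟩
    exact wprod_mem l
  · intro h
    unfold Cartan.W at h
    induction h using Subgroup.closure_induction with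
    | mem x hx =>
      obtain ⟨i, rfl⟩ := hx
      exact isW_s i
    | one => exact isW_one
    | mul x y _ _ hx hy => exact isW_mul hx hy
    | inv x _ hx => exact isW_inv hx

/-- The Demazure crystal does not depend on the reduced word. -/
theorem Dem_indep (lam : C.I → ℕ) {l l' : List C.I} {w : C.Aut} (h : C.Reduced l w)
    (h' : C.Reduced l' w) : F.Dem lam l = F.Dem lam l' := by
  ext b
  rw [mem_Dem_iff, mem_Dem_iff]
  unfold Family.Str
  rw [strip_indep F lam b h h']

theorem in_mul_s {lam : C.I → ℕ} {b : (F.B lam).B} {i : C.I} (hi : lam i = 0) {w : C.Aut}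
    (h : F.In lam b w) : F.In lam b (w * C.s i) := by
  obtain ⟨mu, c, hc⟩ : ∃ (mu : C.I → ℕ) (c : (F.B mu).B), F.Th lam mu c b := by
    obtain ⟨c, hc⟩ := Th_exists F (fun i => (F.B lam).eps i b) lam b (fun i => le_rfl)
    exact ⟨_, c, Th_symm F hc⟩
  have heps : (F.B mu).eps i c = 0 := by
    have := Th_eps F hc i
    omega
  have he : (F.B mu).e i c = none := by
    by_contra hcon
    obtain ⟨b', hb'⟩ := Option.ne_none_iff_exists'.mp hcon
    have := (F.B mu).eps_some i _ _ hb'
    omega
  have hemax := (F.B mu).emax_none i c he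
  rw [In_Th F hc] at h ⊢
  rw [mul_inv_rev, s_inv]
  have hW := in_isW F h
  by_cases hd : C.Desc i w⁻¹
  · rw [in_desc F hW hd, hemax] at h
    exact h
  · rw [in_desc F (isW_mul (isW_s i) hW) ((desc_s F hW i).mpr hd), s_s_mul, hemax]
    exact h

theorem in_mul_stab {lam : C.I → ℕ} {b : (F.B lam).B} (n : ℕ) : ∀ (x : C.Aut), C.IsW x →
    C.len x = n → x (C.dom lam) = C.dom lam → ∀ w, F.In lam b w → F.In lam b (w * x) := by
  induction n with
  | zero =>
    intro x hx hn _ w hw
    obtain ⟨l, hl⟩ := isW_reduced hx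
    have h1 := hl.2
    rw [hn, List.length_eq_zero_iff] at h1
    have h2 : x = 1 := by rw [← hl.1, h1]; rfl
    rw [h2, mul_one]
    exact hw
  | succ n ih =>
    intro x hx hn hstab w hw
    obtain ⟨i, hi⟩ := exists_desc F hx (by omega)
    have h1 := (nonpos_of_desc F hx hi lam).1
    rw [hstab] at h1
    have h2 : lam i = 0 := by
      unfold Cartan.dom at h1
      omega
    have h3 := len_desc F hx hi
    have h4 : (C.s i * x) (C.dom lam) = C.dom lam := by
      change C.s i (x (C.dom lam)) = _
      rw [hstab, s_apply]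
      have : C.dom lam i = 0 := by
        unfold Cartan.dom
        rw [h2]
        rfl
      rw [this, zero_smul, sub_zero]
    have h5 := ih (C.s i * x) (isW_mul (isW_s i) hx) (by omega) h4 _ (in_mul_s F h2 hw)
    rwa [mul_assoc, s_s_mul] at h5

/-- the smallest element is a key in the sense of the definition -/
theorem isKey_of_keyP {lam : C.I → ℕ} {b : (F.B lam).B} {ka : C.Aut} (h : F.KeyP lam b ka) :
    F.IsKey lam b ka := by
  refine ⟨(mem_DemW_iff F lam b ka).mpr h.1, ?_, ?_⟩
  · intro v hv x hx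
    rw [mem_DemW_iff] at hv hx ⊢
    exact in_mono F (h.2 v hv) hx
  · intro x hx hstab hne
    have h1 := in_mul_stab F (C.len x) x ((isW_iff x).mpr hx) rfl hstab ka h.1
    have h2 := h.2 _ h1
    rcases Nat.lt_or_ge (C.len ka) (C.len (ka * x)) with h3 | h3
    · exact h3
    · exfalso
      apply hne
      exact left_eq_mul.mp (le_eq h2 h3)

theorem isKey_unique {lam : C.I → ℕ} {b : (F.B lam).B} {w w' : C.Aut} (h : F.IsKey lam b w)
    (h' : F.IsKey lam b w') : w = w' := by
  have hW : ∀ u, F.IsKey lam b u → ∃ l, C.Reduced l u := by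
    intro u hu
    obtain ⟨l, hl, -⟩ := hu.1
    exact ⟨l, hl⟩
  have h1 := len_le_of_subset F lam w w' (hW w h) h.2.2 (h.2.1 w' h'.1)
  have h2 := len_le_of_subset F lam w' w (hW w' h') h'.2.2 (h'.2.1 w h.1)
  exact h1.2 (le_antisymm h1.1 h2.1)

theorem isKey_iff {lam : C.I → ℕ} {b : (F.B lam).B} {ka : C.Aut} (h : F.KeyP lam b ka)
    (w : C.Aut) : F.IsKey lam b w ↔ w = ka := by
  constructor
  · intro h1
    exact isKey_unique F h1 (isKey_of_keyP F h)
  · rintro rfl
    exact isKey_of_keyP F h

/-- Every element of `B_λ` has exactly one key. -/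
theorem existsUnique_key (lam : C.I → ℕ) (b : (F.B lam).B) : ∃! w, F.IsKey lam b w := by
  obtain ⟨ka, hka⟩ := exists_key F lam b
  exact ⟨ka, isKey_of_keyP F hka, fun w hw => (isKey_iff F hka w).mp hw⟩

/-- Corresponding elements have inverse keys. -/
theorem key_inverse {lam mu : C.I → ℕ} {c : (F.B mu).B} {b : (F.B lam).B} (h : F.Th lam mu c b) :
    ∃ w ∈ C.W, (∀ v, F.IsKey lam b v ↔ v = w) ∧ (∀ v, F.IsKey mu c v ↔ v = w⁻¹) := by
  obtain ⟨ka, hka⟩ := exists_key F lam b
  have h1 := KeyP_Th F (Th_symm F h) hka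
  exact ⟨ka, (isW_iff ka).mp (in_isW F hka.1), isKey_iff F hka, isKey_iff F h1⟩

end Pool.Agent.H59.KY
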