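import Pool.Agent.H38.KE.Alt

/-!
The string property and the rank two claim.
-/

set_option autoImplicit false

open scoped Classical

namespace Pool.Agent.H59.KY

variable {C : Cartan}

/-! ### String property -/

theorem left_eq_zero (X : Crystal C) (i : C.I) (l : List C.I) (m m' : ℕ) (b : X.B) (hm : 1 ≤ m)
    (h : X.left i l m b = 0) : X.left i l m' b = 0 := by
  induction l generalizing m m' b with
  | nil =>
    change m = 0 at h
    omega
  | cons j l ih =>
    change X.left i l (if j = i then min m (X.phi i b) else m) (X.emax j b) = 0 at h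
    change X.left i l (if j = i then min m' (X.phi i b) else m') (X.emax j b) = 0
    by_cases hj : j = i
    · rw [if_pos hj] at h ⊢
      rcases Nat.eq_zero_or_pos (X.phi i b) with h0 | h0
      · rw [h0, Nat.min_zero]
        exact Nat.le_zero.mp (left_le X i l 0 _)
      · exact ih _ _ _ (by omega) h
    · rw [if_neg hj] at h ⊢
      exact ih _ _ _ hm h

variable (F : Family C)

/-- the string property -/
theorem Str_f (mu : C.I → ℕ) (l : List C.I) (c c' : (F.B mu).B) (j : C.I)
    (h : (F.B mu).f j c = some c') (hpos : 0 < (F.B mu).eps j c) (hc : F.Str mu l c) :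
    F.Str mu l c' := by
  have hem : (F.B mu).emax j c' = (F.B mu).emax j c := (F.B mu).emax_of_f j c c' h
  have hej : (F.B mu).e j c' = some c := ((F.B mu).f_iff j c c').mp h
  have heps := (F.B mu).eps_some j c' c hej
  set c0 := (F.B mu).emax j c with hc0
  let lam' : C.I → ℕ := fun k => if k = j then 0 else (F.B mu).eps k c0
  set n := (F.B mu).eps j c' with hn
  have hl0 : lam' j = 0 := by
    change (if j = j then 0 else (F.B mu).eps j c0) = 0
    rw [if_pos rfl]
  have he : ∀ k, (F.B mu).eps k c0 ≤ lam' k := by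
    intro k
    by_cases hk : k = j
    · subst hk
      rw [hc0, (F.B mu).eps_emax]
      exact Nat.zero_le _
    · change _ ≤ (if k = j then 0 else (F.B mu).eps k c0)
      rw [if_neg hk]
  obtain ⟨b, b0, hb, hb0, hJ⟩ := Th_string F c j n (lam' + Pi.single j n) lam' rfl hl0
    (by omega) he
  obtain ⟨b', b0', hb', hb0', hJ'⟩ := Th_string F c' j n (lam' + Pi.single j n) lam' rfl hl0
    le_rfl (by rw [hem]; exact he)
  have h00 : b0' = b0 := by
    rw [hem] at hb0'
    exact Th_unique F hb0' hb0
  subst h00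
  obtain ⟨J, hJJ⟩ := J_exists F (lam' + Pi.single j n) lam' (Pi.single j n) rfl
  have h1 := hJ J hJJ
  have h2 := hJ' J hJJ
  have h3 := (Str_iff F hb l).mp hc
  rw [Str_iff F hb' l]
  have h4 : (F.B (lam' + Pi.single j n)).strip l.reverse b = F.hw _ := h3
  have h5 : (F.T (Pi.single j n) lam').strip l.reverse (J.map b) =
      (F.hw (Pi.single j n), F.hw lam') := by
    rw [J.strip_map, h4, hJJ]
  rw [h1, strip_tensor F lam' j n l.reverse _ (by omega) b0'] at h5
  have h6 := Prod.mk.inj h5
  have hphi : ∀ k, k ≤ n → k ≤ (F.B (Pi.single j n)).phi j (F.hw (Pi.single j n)) := by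
    intro k hk
    rw [phi_hw, Pi.single_eq_same]; exact hk
  have h7 : (F.B lam').left j l.reverse ((F.B mu).eps j c) b0' = 0 := by
    have h8 := (F.B (Pi.single j n)).eps_down j
      ((F.B lam').left j l.reverse ((F.B mu).eps j c) b0')
      (F.hw (Pi.single j n)) (hphi _ ((left_le _ _ _ _ _).trans (by omega)))
    rw [h6.1, eps_hw] at h8
    omega
  have h8 : (F.B lam').left j l.reverse ((F.B mu).eps j c') b0' = 0 :=
    left_eq_zero (F.B lam') j l.reverse _ _ b0' hpos h7
  change (F.B (lam' + Pi.single j n)).strip l.reverse b' = F.hw _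
  apply eq_hw_of_map F J
  rw [← J.strip_map, h2, strip_tensor F lam' j n l.reverse _ le_rfl b0', h8, h6.2]
  rfl

/-! ### Elements which are lowest for a Levi subalgebra -/

theorem down_xi (lam : C.I → ℕ) (i : C.I) (n : ℕ) (b : (F.B lam).B) :
    (F.B lam).down (F.star i) n (F.xi lam b) = F.xi lam ((F.B lam).up i n b) := by
  induction n generalizing b with
  | zero => rfl
  | succ n ih =>
    have h1 := F.f_xi lam (F.star i) b
    rw [F.star_star] at h1
    cases h : (F.B lam).e i b with
    | none =>
      rw [h] at h1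
      rw [(F.B lam).up_none i _ b h, (F.B lam).down_none _ _ _ (by rw [h1]; rfl)]
    | some b' =>
      rw [h] at h1
      rw [(F.B lam).up_some i n b b' h,
        (F.B lam).down_some (F.star i) n _ (F.xi lam b') (by rw [h1]; rfl), ih]

/-- an element which is lowest for the Levi subalgebra `J` is extremal for `J` -/
theorem jext (lam : C.I → ℕ) (J : Set C.I) (c : (F.B lam).B)
    (hc : ∀ i ∈ J, (F.B lam).phi i c = 0) (l : List C.I) (hl : ∀ i ∈ l, i ∈ J) (i : C.I)
    (hi : i ∈ J) :
    (F.B lam).eps i ((F.B lam).strip l c) = 0 ∨ (F.B lam).phi i ((F.B lam).strip l c) = 0 := by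
  let d := F.xi lam c
  let mu : C.I → ℕ := fun j => if F.star j ∈ J then 0 else (F.B lam).eps j d
  have hmu : ∀ j ∈ J, mu (F.star j) = 0 := by
    intro j hj
    change (if F.star (F.star j) ∈ J then 0 else _) = 0
    rw [F.star_star, if_pos hj]
  have hle : ∀ j, (F.B lam).eps j d ≤ mu j := by
    intro j
    change _ ≤ (if F.star j ∈ J then 0 else _)
    split_ifs with h
    · change (F.B lam).eps j (F.xi lam c) ≤ 0
      rw [eps_xi, hc _ h]
    · exact le_rfl
  obtain ⟨nu, g, hg⟩ := F.tens lam mu (d, F.hw mu)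
    ((tensor_hw F lam mu d (F.hw mu)).mpr ⟨rfl, hle⟩)
  have key : ∀ (l : List C.I), (∀ i ∈ l, i ∈ J) → ∀ c' : (F.B lam).B,
      (∃ (v : (F.B nu).B) (m : List C.I), (F.B nu).wt v = C.wprod m (C.dom nu) ∧
        g.map v = (F.xi lam c', F.hw mu)) →
      ∃ (v : (F.B nu).B) (m : List C.I), (F.B nu).wt v = C.wprod m (C.dom nu) ∧
        g.map v = (F.xi lam ((F.B lam).strip l c'), F.hw mu) := by
    intro l
    induction l with
    | nil => intro _ c' h; exact h
    | cons i l ih =>
      rintro hl c' ⟨v, m, hv, hgv⟩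
      apply ih (fun j hj => hl j (List.mem_cons_of_mem i hj)) ((F.B lam).emax i c')
      have hiJ := hl i List.mem_cons_self
      have hphi : (F.B nu).phi (F.star i) v = (F.B lam).eps i c' := by
        rw [← g.phi_map, hgv]
        change (F.B lam).phi (F.star i) (F.xi lam c') + ((F.B mu).phi (F.star i) (F.hw mu) -
          (F.B lam).eps (F.star i) (F.xi lam c')) = _
        rw [phi_hw, hmu i hiJ, phi_xi, F.star_star]
        omega
      have hwt : ∃ m', (F.B nu).wt ((F.B nu).down (F.star i) ((F.B nu).phi (F.star i) v) v) =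
          C.wprod m' (C.dom nu) := by
        rcases extremal F nu m v hv (F.star i) with h0 | h0
        · refine ⟨F.star i :: m, ?_⟩
          have h1 := (F.B nu).phi_eps (F.star i) v
          rw [h0] at h1
          rw [(F.B nu).wt_down _ _ _ le_rfl, wprod_cons, LinearEquiv.mul_apply, ← hv, s_apply, h1]
          simp
        · refine ⟨m, ?_⟩
          rw [h0]
          exact hv
      obtain ⟨m', hm'⟩ := hwt
      refine ⟨_, m', hm', ?_⟩
      rw [← g.down_map, hgv, hphi]
      have h2 := tensor_down F (F.B lam) mu (F.star i) (hmu i hiJ) ((F.B lam).eps i c')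
        (F.xi lam c')
      rw [h2, down_xi]
      rfl
  obtain ⟨v, m, hv, hgv⟩ := key l hl c ⟨F.hw nu, [], by rw [wt_hw_eq]; rfl, hg⟩
  have hphi : (F.B nu).phi (F.star i) v = (F.B lam).eps i ((F.B lam).strip l c) := by
    rw [← g.phi_map, hgv]
    change (F.B lam).phi (F.star i) (F.xi lam _) + ((F.B mu).phi (F.star i) (F.hw mu) -
      (F.B lam).eps (F.star i) (F.xi lam _)) = _
    rw [phi_hw, hmu i hi, phi_xi, F.star_star]
    omega
  have heps : (F.B nu).eps (F.star i) v = (F.B lam).phi i ((F.B lam).strip l c) := by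
    rw [← g.eps_map, hgv]
    change (F.B mu).eps (F.star i) (F.hw mu) + ((F.B lam).eps (F.star i) (F.xi lam _) -
      (F.B mu).phi (F.star i) (F.hw mu)) = _
    rw [phi_hw, hmu i hi, eps_hw, eps_xi, F.star_star]
    omega
  rcases extremal F nu m v hv (F.star i) with h0 | h0
  · right; rw [← heps]; exact h0
  · left; rw [← hphi]; exact h0

/-! ### Alternating words -/

/-- the next letter to be stripped, if `n` letters are left and the last one is `k` -/
def nl (k k' : C.I) : ℕ → C.I
  | 0 => k'
  | n + 1 => nl k' k n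

theorem nl_zero (k k' : C.I) : nl k k' 0 = k' := rfl

theorem nl_succ (k k' : C.I) (n : ℕ) : nl k k' (n + 1) = nl k' k n := rfl

theorem nl_cases (n : ℕ) : ∀ k k' : C.I, (nl k k' n = k ∧ nl k' k n = k') ∨
    (nl k k' n = k' ∧ nl k' k n = k) := by
  induction n with
  | zero => intro k k'; right; exact ⟨rfl, rfl⟩
  | succ n ih =>
    intro k k'
    rw [nl_succ, nl_succ]
    rcases ih k k' with ⟨h1, h2⟩ | ⟨h1, h2⟩
    · right; exact ⟨h2, h1⟩
    · left; exact ⟨h2, h1⟩

theorem alt_cons (n : ℕ) : ∀ k k' : C.I, alt k k' (n + 1) = nl k k' (n + 1) :: alt k k' n := by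
  induction n with
  | zero => intro k k'; rfl
  | succ n ih =>
    intro k k'
    rw [alt_succ k k' (n + 1), ih k' k, nl_succ k k' (n + 1), List.cons_append, ← alt_succ]

theorem alt_mem (n : ℕ) : ∀ k k' : C.I, ∀ i ∈ alt k k' n, i = k ∨ i = k' := by
  induction n with
  | zero => intro k k' i hi; exact absurd hi List.not_mem_nil
  | succ n ih =>
    intro k k' i hi
    rw [alt_succ, List.mem_append, List.mem_singleton] at hi
    rcases hi with hi | hi
    · exact (ih k' k i hi).symm
    · exact Or.inl hi

/-- weights along an alternating word -/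
def zz (C : Cartan) : ℕ → C.I → C.I → ℤ → ℤ → ℤ
  | 0, _, _, x, _ => x
  | t + 1, i, j, x, y => zz C t j i (y - C.A j i * x) (-x)

theorem chase (lam : C.I → ℕ) (n : ℕ) : ∀ (k k' : C.I) (c : (F.B lam).B) (x y : ℤ),
    (∀ l : List C.I, (∀ i ∈ l, i = k ∨ i = k') → ∀ i, (i = k ∨ i = k') →
      (F.B lam).eps i ((F.B lam).strip l c) = 0 ∨ (F.B lam).phi i ((F.B lam).strip l c) = 0) →
    (F.B lam).wt c (nl k k' n) = x → (F.B lam).wt c (nl k' k n) = y →
    (∀ t < n, zz C t (nl k k' n) (nl k' k n) x y < 0) →
    (F.B lam).wt ((F.B lam).strip (alt k k' n) c) k' =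
      zz C n (nl k k' n) (nl k' k n) x y := by
  induction n with
  | zero =>
    intro k k' c x y _ hx _ _
    exact hx
  | succ n ih =>
    intro k k' c x y hext hx hy hneg
    set i := nl k k' (n + 1) with hi
    set j := nl k' k (n + 1) with hj
    have hik : i = k ∨ i = k' := by
      rcases nl_cases (n + 1) k k' with ⟨h1, _⟩ | ⟨h1, _⟩
      · left; exact h1
      · right; exact h1
    rw [alt_cons]
    change (F.B lam).wt ((F.B lam).strip (alt k k' n) ((F.B lam).emax i c)) k' = _
    have hx0 : x < 0 := hneg 0 (Nat.succ_pos n)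
    have h1 := (F.B lam).phi_eps i c
    have h2 : (F.B lam).phi i c = 0 := by
      rcases hext [] (by intro i hi; exact absurd hi List.not_mem_nil) i hik with h3 | h3
      · change (F.B lam).eps i c = 0 at h3
        rw [h3, hx] at h1
        push_cast at h1
        omega
      · exact h3
    have h3 : ((F.B lam).eps i c : ℤ) = -x := by
      rw [h2, hx] at h1
      push_cast at h1
      linarith
    have h4 : ∀ a, (F.B lam).wt ((F.B lam).emax i c) a = (F.B lam).wt c a - C.A a i * x := by
      intro a
      rw [(F.B lam).wt_emax, Pi.add_apply, Pi.smul_apply, smul_eq_mul, h3, Cartan.al]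
      ring
    have h5 := ih k k' ((F.B lam).emax i c) (y - C.A j i * x) (-x) (by
      intro l hl a ha
      exact hext (i :: l) (by
        intro b hb
        rcases List.mem_cons.mp hb with rfl | hb
        · exact hik
        · exact hl b hb) a ha) (by
      change (F.B lam).wt ((F.B lam).emax i c) j = _
      rw [h4, hy]) (by
      change (F.B lam).wt ((F.B lam).emax i c) i = _
      rw [h4, hx, C.diag]
      ring) (by
      intro t ht
      exact hneg (t + 1) (by omega))
    exact h5

/-! ### Braid relations -/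

theorem s_coord (i j : C.I) (x : C.Wt) : (C.s i x) j = x j - x i * C.A j i := by
  rw [s_apply]
  rfl

theorem braid2 (k k' : C.I) (h1 : C.A k k' = 0) (h2 : C.A k' k = 0) :
    C.wprod (alt k k' 2) = C.wprod (alt k' k 2) := by
  apply LinearEquiv.ext
  intro x
  funext j
  simp only [alt, List.nil_append, List.cons_append, wprod_cons, wprod_nil, LinearEquiv.mul_apply,
    mul_one, s_coord, h1, h2]
  ring

theorem braid3 (k k' : C.I) (h1 : C.A k k' = -1) (h2 : C.A k' k = -1) :
    C.wprod (alt k k' 3) = C.wprod (alt k' k 3) := by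
  apply LinearEquiv.ext
  intro x
  funext j
  simp only [alt, List.nil_append, List.cons_append, wprod_cons, wprod_nil, LinearEquiv.mul_apply,
    mul_one, s_coord, h1, h2, C.diag]
  ring

theorem braid4 (k k' : C.I) (h1 : C.A k k' = -1) (h2 : C.A k' k = -2) :
    C.wprod (alt k k' 4) = C.wprod (alt k' k 4) := by
  apply LinearEquiv.ext
  intro x
  funext j
  simp only [alt, List.nil_append, List.cons_append, wprod_cons, wprod_nil, LinearEquiv.mul_apply,
    mul_one, s_coord, h1, h2, C.diag]
  ring

theorem braid6 (k k' : C.I) (h1 : C.A k k' = -1) (h2 : C.A k' k = -3) :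
    C.wprod (alt k k' 6) = C.wprod (alt k' k 6) := by
  apply LinearEquiv.ext
  intro x
  funext j
  simp only [alt, List.nil_append, List.cons_append, wprod_cons, wprod_nil, LinearEquiv.mul_apply,
    mul_one, s_coord, h1, h2, C.diag]
  ring

theorem alt_prefix (r : ℕ) : ∀ (n : ℕ) (k k' : C.I), ∃ P : List C.I, P.length = r ∧
    alt k k' (n + r) = P ++ alt k k' n := by
  induction r with
  | zero => intro n k k'; exact ⟨[], rfl, rfl⟩
  | succ r ih =>
    intro n k k'
    obtain ⟨P, h1, h2⟩ := ih n k k'
    refine ⟨nl k k' (n + r + 1) :: P, by rw [List.length_cons, h1], ?_⟩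
    rw [← Nat.add_assoc, alt_cons, h2, List.cons_append]

theorem lt_of_braid (k k' : C.I) (m T : ℕ) (w w' : C.Aut)
    (hb : C.wprod (alt k k' (m + 1)) = C.wprod (alt k' k (m + 1)))
    (h1 : C.Reduced (alt k k' (T + 1)) w) (h2 : C.Reduced (alt k' k (T + 1)) w') (hne : w ≠ w') :
    T < m := by
  by_contra hcon
  push Not at hcon
  rcases Nat.eq_or_lt_of_le hcon with h3 | h3
  · subst h3
    apply hne
    rw [← h1.1, ← h2.1, hb]
  · obtain ⟨r, rfl⟩ := Nat.exists_eq_add_of_lt h3
    obtain ⟨P, h4, h5⟩ := alt_prefix r (m + 1 + 1) k k'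
    have h6 : C.wprod (alt k k' (m + 1 + 1)) = C.wprod (alt k' k m) := by
      rw [alt_succ, wprod_append, ← hb, alt_succ, wprod_append, wprod_single, mul_assoc,
        s_mul_self, mul_one]
    have h7 : w = C.wprod (P ++ alt k' k m) := by
      rw [← h1.1, wprod_append, ← h6, ← wprod_append, ← h5]
      congr 2
      omega
    have h8 := len_le (C := C) (P ++ alt k' k m)
    rw [← h7, ← h1.2, List.length_append, alt_length, alt_length, h4] at h8
    omega

/-- off-diagonal entries of a Cartan matrix of finite type -/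
theorem A_cases (k k' : C.I) (hk : k ≠ k') :
    (C.A k k' = 0 ∧ C.A k' k = 0) ∨ (C.A k k' = -1 ∧ C.A k' k = -1) ∨
    (C.A k k' = -1 ∧ C.A k' k = -2) ∨ (C.A k k' = -2 ∧ C.A k' k = -1) ∨
    (C.A k k' = -1 ∧ C.A k' k = -3) ∨ (C.A k k' = -3 ∧ C.A k' k = -1) := by
  obtain ⟨d, hd, hsymm, hpos⟩ := C.pos
  have h1 := C.off k k' hk
  have h2 := C.off k' k hk.symm
  have h3 := C.zero k k'
  have h4 := C.zero k' k
  have hlt : C.A k k' * C.A k' k < 4 := by
    set a : ℤ := C.A k k' with ha
    set a' : ℤ := C.A k' k with ha'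
    let x : C.I → ℚ := fun i => if i = k then -(a : ℚ) else if i = k' then 2 else 0
    have hxk : x k = -(a : ℚ) := by
      change (if k = k then _ else _) = _
      rw [if_pos rfl]
    have hxk' : x k' = 2 := by
      change (if k' = k then _ else if k' = k' then _ else _) = _
      rw [if_neg hk.symm, if_pos rfl]
    have hx0 : ∀ i, i ≠ k → i ≠ k' → x i = 0 := by
      intro i hi hi'
      change (if i = k then _ else if i = k' then _ else _) = _
      rw [if_neg hi, if_neg hi']
    have hx : x ≠ 0 := by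
      intro h
      have := congrFun h k'
      rw [hxk'] at this
      norm_num at this
    have h5 := hpos x hx
    have h6 : ∀ f : C.I → ℚ, (∀ i, i ≠ k → i ≠ k' → f i = 0) → ∑ i, f i = f k + f k' := by
      intro f hf
      rw [← Finset.sum_subset (Finset.subset_univ ({k, k'} : Finset C.I))]
      · rw [Finset.sum_pair hk]
      · intro i _ hi
        rw [Finset.mem_insert, Finset.mem_singleton] at hi
        push Not at hi
        exact hf i hi.1 hi.2
    rw [h6] at h5
    · rw [h6, h6] at h5
      · rw [hxk, hxk', C.diag, C.diag, ← ha, ← ha'] at h5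
        have h7 := hsymm k k'
        rw [← ha, ← ha'] at h7
        have h8 := hd k'
        push_cast at h5
        have h9 : (a : ℚ) * a' < 4 := by
          by_contra hcon
          push Not at hcon
          have h10 : d k' * 4 ≤ d k' * ((a : ℚ) * a') := mul_le_mul_of_nonneg_left hcon h8.le
          have h11 : d k * (a : ℚ) * a = d k' * a' * a := by rw [h7]
          nlinarith
        exact_mod_cast h9
      · intro i hi hi'
        rw [hx0 i hi hi', mul_zero]
      · intro i hi hi'
        rw [hx0 i hi hi', mul_zero]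
    · intro i hi hi'
      apply Finset.sum_eq_zero
      intro j _
      rw [hx0 i hi hi', mul_zero, zero_mul]
  obtain ⟨p, hp⟩ : ∃ p : ℕ, C.A k k' = -(p : ℤ) := ⟨(-(C.A k k')).toNat, by omega⟩
  obtain ⟨q, hq⟩ : ∃ q : ℕ, C.A k' k = -(q : ℤ) := ⟨(-(C.A k' k)).toNat, by omega⟩
  rw [hp, hq] at hlt h3 h4
  rw [hp, hq]
  have hpq : p * q < 4 := by
    have : (p : ℤ) * q < 4 := by linarith
    exact_mod_cast this
  rcases Nat.eq_zero_or_pos p with hp0 | hp0
  · subst hp0
    left
    exact ⟨by simp, h3 (by simp)⟩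
  rcases Nat.eq_zero_or_pos q with hq0 | hq0
  · subst hq0
    left
    exact ⟨h4 (by simp), by simp⟩
  have hp3 : p ≤ 3 := by nlinarith
  have hq3 : q ≤ 3 := by nlinarith
  interval_cases p <;> interval_cases q <;> simp_all

/-! ### The rank two claim -/

theorem no_lowest (lam : C.I → ℕ) (c : (F.B lam).B) (k k' : C.I) (hk : k ≠ k') (T : ℕ)
    (w w' : C.Aut)
    (h1 : C.Reduced (alt k k' (T + 1)) w) (h2 : C.Reduced (alt k' k (T + 1)) w') (hne : w ≠ w')
    (hs : F.Str lam (alt k k' (T + 1)) c) (he : 0 < (F.B lam).eps k c)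
    (he' : 0 < (F.B lam).eps k' c) (hp : (F.B lam).phi k c = 0) (hp' : (F.B lam).phi k' c = 0) :
    False := by
  have hext := jext F lam {i | i = k ∨ i = k'} c (by
    rintro i (rfl | rfl)
    · exact hp
    · exact hp')
  have hx := (F.B lam).phi_eps k c
  have hy := (F.B lam).phi_eps k' c
  rw [hp] at hx
  rw [hp'] at hy
  have hchase := chase F lam (T + 1) k k' c _ _ hext rfl rfl
  have hs' : (F.B lam).strip (alt k k' (T + 1)) c = F.hw lam := hs
  rw [hs', F.wt_hw] at hchase
  have hneg : ∀ t ≤ T + 1, zz C t (nl k k' (T + 1)) (nl k' k (T + 1))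
      ((F.B lam).wt c (nl k k' (T + 1))) ((F.B lam).wt c (nl k' k (T + 1))) < 0 := by
    set x := (F.B lam).wt c k with hxx
    set y := (F.B lam).wt c k' with hyy
    have hx0 : x < 0 := by
      push_cast at hx
      omega
    have hy0 : y < 0 := by
      push_cast at hy
      omega
    rcases A_cases k k' hk with ⟨a1, a2⟩ | ⟨a1, a2⟩ | ⟨a1, a2⟩ | ⟨a1, a2⟩ | ⟨a1, a2⟩ | ⟨a1, a2⟩
    · have hT := lt_of_braid k k' 1 T w w' (braid2 k k' a1 a2) h1 h2 hne
      intro t ht
      rcases nl_cases (T + 1) k k' with ⟨b1, b2⟩ | ⟨b1, b2⟩ <;> rw [b1, b2] <;>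
        have : t ≤ 1 := by omega
      all_goals interval_cases t <;> simp only [zz, a1, a2] <;> omega
    · have hT := lt_of_braid k k' 2 T w w' (braid3 k k' a1 a2) h1 h2 hne
      intro t ht
      rcases nl_cases (T + 1) k k' with ⟨b1, b2⟩ | ⟨b1, b2⟩ <;> rw [b1, b2] <;>
        have : t ≤ 2 := by omega
      all_goals interval_cases t <;> simp only [zz, a1, a2] <;> omega
    · have hT := lt_of_braid k k' 3 T w w' (braid4 k k' a1 a2) h1 h2 hne
      intro t ht
      rcases nl_cases (T + 1) k k' with ⟨b1, b2⟩ | ⟨b1, b2⟩ <;> rw [b1, b2] <;>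
        have : t ≤ 3 := by omega
      all_goals interval_cases t <;> simp only [zz, a1, a2] <;> omega
    · have hT := lt_of_braid k k' 3 T w w' (braid4 k' k a2 a1).symm h1 h2 hne
      intro t ht
      rcases nl_cases (T + 1) k k' with ⟨b1, b2⟩ | ⟨b1, b2⟩ <;> rw [b1, b2] <;>
        have : t ≤ 3 := by omega
      all_goals interval_cases t <;> simp only [zz, a1, a2] <;> omega
    · have hT := lt_of_braid k k' 5 T w w' (braid6 k k' a1 a2) h1 h2 hne
      intro t ht
      rcases nl_cases (T + 1) k k' with ⟨b1, b2⟩ | ⟨b1, b2⟩ <;> rw [b1, b2] <;>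
        have : t ≤ 5 := by omega
      all_goals interval_cases t <;> simp only [zz, a1, a2] <;> omega
    · have hT := lt_of_braid k k' 5 T w w' (braid6 k' k a2 a1).symm h1 h2 hne
      intro t ht
      rcases nl_cases (T + 1) k k' with ⟨b1, b2⟩ | ⟨b1, b2⟩ <;> rw [b1, b2] <;>
        have : t ≤ 5 := by omega
      all_goals interval_cases t <;> simp only [zz, a1, a2] <;> omega
  have h3 := hchase (fun t ht => hneg t ht.le)
  have h4 := hneg (T + 1) le_rfl
  rw [← h3] at h4
  omega

/-- two different alternating words of the same length: an element stripped by both is stripped by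
a shorter one -/
theorem rank_two (lam : C.I → ℕ) (c : (F.B lam).B) (k k' : C.I) (T : ℕ) (w w' : C.Aut)
    (h1 : C.Reduced (alt k k' (T + 1)) w) (h2 : C.Reduced (alt k' k (T + 1)) w') (hne : w ≠ w')
    (hs : F.Str lam (alt k k' (T + 1)) c) (hs' : F.Str lam (alt k' k (T + 1)) c) :
    F.Str lam (alt k k' T) c ∨ F.Str lam (alt k' k T) c := by
  by_cases hk : k = k'
  · subst hk
    exact absurd (h1.1.symm.trans h2.1) hne
  obtain ⟨n, hn⟩ := wt_le F lam (F.xi lam c)
  induction hN : ∑ j, n j using Nat.strong_induction_on generalizing c n with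
  | _ N ih =>
    -- the two first letters
    have hfirst : (nl k k' (T + 1) = k ∧ nl k' k (T + 1) = k') ∨
      (nl k k' (T + 1) = k' ∧ nl k' k (T + 1) = k) := nl_cases (T + 1) k k'
    have hdrop : ∀ (a a' : C.I), F.Str lam (alt a a' (T + 1)) c →
        (F.B lam).eps (nl a a' (T + 1)) c = 0 → F.Str lam (alt a a' T) c := by
      intro a a' ha h0
      rw [alt_cons] at ha
      have ha' : F.Str lam (alt a a' T) ((F.B lam).emax (nl a a' (T + 1)) c) := ha
      have hem : (F.B lam).emax (nl a a' (T + 1)) c = c := by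
        unfold Crystal.emax
        rw [h0, Crystal.up_zero]
      rwa [hem] at ha'
    by_cases he1 : (F.B lam).eps (nl k k' (T + 1)) c = 0
    · exact Or.inl (hdrop k k' hs he1)
    by_cases he2 : (F.B lam).eps (nl k' k (T + 1)) c = 0
    · exact Or.inr (hdrop k' k hs' he2)
    have hek : 0 < (F.B lam).eps k c ∧ 0 < (F.B lam).eps k' c := by
      rcases hfirst with ⟨h3, h4⟩ | ⟨h3, h4⟩
      · rw [h3] at he1
        rw [h4] at he2
        exact ⟨Nat.pos_of_ne_zero he1, Nat.pos_of_ne_zero he2⟩
      · rw [h3] at he1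
        rw [h4] at he2
        exact ⟨Nat.pos_of_ne_zero he2, Nat.pos_of_ne_zero he1⟩
    have hstep : ∀ i, 0 < (F.B lam).eps i c → 0 < (F.B lam).phi i c →
        F.Str lam (alt k k' T) c ∨ F.Str lam (alt k' k T) c := by
      intro i hi hi'
      obtain ⟨c2, hc2⟩ := (F.B lam).f_ne_none i c hi'
      obtain ⟨n2, hn2⟩ := wt_le F lam (F.xi lam c2)
      have h3 : (F.B lam).e (F.star i) (F.xi lam c) = some (F.xi lam c2) := by
        rw [F.e_xi, F.star_star, hc2]
        rfl
      have h4 := (F.B lam).wt_e _ _ _ h3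
      rw [hn, hn2] at h4
      have h5 : C.root ((fun j => (n2 j : ℤ)) + -(fun j => (n j : ℤ)) +
          Pi.single (F.star i) 1) = 0 := by
        rw [root_add, root_add, root_neg, root_single, one_smul]
        have h6 : C.dom lam - C.root (fun j => (n2 j : ℤ)) -
          (C.dom lam - C.root (fun j => (n j : ℤ)) + C.al (F.star i)) = 0 := by
          rw [h4, sub_self]
        have h7 : C.root (fun j => (n2 j : ℤ)) + -C.root (fun j => (n j : ℤ)) +
          C.al (F.star i) = -(C.dom lam - C.root (fun j => (n2 j : ℤ)) -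
          (C.dom lam - C.root (fun j => (n j : ℤ)) + C.al (F.star i))) := by abel
        rw [h7, h6, neg_zero]
      have h6 := root_indep _ h5
      have h7 : ∑ j, (n2 j : ℤ) + 1 = ∑ j, (n j : ℤ) := by
        have h8 : ∑ j, ((fun j => (n2 j : ℤ)) + -(fun j => (n j : ℤ)) +
          Pi.single (F.star i) 1 : C.I → ℤ) j = 0 := by
          rw [h6]
          simp
        simp only [Pi.add_apply, Pi.neg_apply, Finset.sum_add_distrib, Finset.sum_neg_distrib,
          Finset.sum_pi_single', Finset.mem_univ, if_true] at h8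
        linarith
      have h8 : ∑ j, n2 j < N := by
        rw [← hN]
        have : ((∑ j, n2 j : ℕ) : ℤ) + 1 = ((∑ j, n j : ℕ) : ℤ) := by
          push_cast
          exact h7
        omega
      have h9 := ih _ h8 c2 (Str_f F lam _ c c2 i hc2 hi hs) (Str_f F lam _ c c2 i hc2 hi hs')
        n2 hn2 rfl
      have h10 : (F.B lam).e i c2 = some c := ((F.B lam).f_iff i c c2).mp hc2
      rcases h9 with h9 | h9
      · exact Or.inl (Str_e F lam _ c2 c i h10 h9)
      · exact Or.inr (Str_e F lam _ c2 c i h10 h9)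
    rcases Nat.eq_zero_or_pos ((F.B lam).phi k c) with hp | hp
    · rcases Nat.eq_zero_or_pos ((F.B lam).phi k' c) with hp' | hp'
      · exact (no_lowest F lam c k k' hk T w w' h1 h2 hne hs hek.1 hek.2 hp hp').elim
      · exact hstep k' hek.2 hp'
    · exact hstep k hek.1 hp

end Pool.Agent.H59.KY
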