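import Pool.Agent.H38.KE.Square
import Pool.Agent.H38.KE.Rank2

/-!
Existence of the key: for every `b` the set `{w : b ∈ B_w(λ)}` has a smallest element.
-/

set_option autoImplicit false

open scoped Classical

namespace Pool.Agent.H59.KY

variable {C : Cartan} (F : Family C)

theorem D_in {l l0 : C.I → ℕ} {k : C.I} {b : (F.B l).B} {b0 : (F.B l0).B} (h : F.D l l0 k b b0)
    {w : C.Aut} (hw : F.In l b w) : F.In l0 b0 w := by
  obtain ⟨mu, c, h1, h2⟩ := h
  rw [In_Th F h2]
  rw [In_Th F h1] at hw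
  exact in_emax F k hw

theorem D_up {l l0 : C.I → ℕ} {k : C.I} {b : (F.B l).B} {b0 : (F.B l0).B} (h : F.D l l0 k b b0)
    {w : C.Aut} (hw : F.In l0 b0 w) : F.In l b (C.upw k w⁻¹)⁻¹ := by
  obtain ⟨mu, c, h1, h2⟩ := h
  rw [In_Th F h2] at hw
  rw [In_Th F h1, inv_inv]
  exact in_upw F k hw

theorem KeyP_congr {lam l : C.I → ℕ} {b : (F.B lam).B} {b' : (F.B l).B}
    (h : ∀ w, F.In lam b w ↔ F.In l b' w) {ka : C.Aut} (hk : F.KeyP lam b ka) :
    F.KeyP l b' ka :=
  ⟨(h ka).mp hk.1, fun w hw => hk.2 w ((h w).mpr hw)⟩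

theorem KeyP_Th {lam mu : C.I → ℕ} {c : (F.B mu).B} {b : (F.B lam).B} (h : F.Th lam mu c b)
    {ka : C.Aut} (hk : F.KeyP mu c ka) : F.KeyP lam b ka⁻¹ := by
  refine ⟨?_, ?_⟩
  · rw [In_Th F h, inv_inv]
    exact hk.1
  · intro w hw
    rw [In_Th F h] at hw
    have := le_inv (hk.2 _ hw)
    rwa [inv_inv] at this

/-- `v` has minimal length among the `w` with `b ∈ B_w(λ)` -/
def Family.Min (lam : C.I → ℕ) (b : (F.B lam).B) (v : C.Aut) : Prop :=
  F.In lam b v ∧ ∀ w, F.In lam b w → C.len v ≤ C.len w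

theorem lemA {n : ℕ} (IH : ∀ m < n, ∀ (lam : C.I → ℕ) (b : (F.B lam).B), F.Ht lam b m →
    ∃ ka, F.KeyP lam b ka) {lam : C.I → ℕ} {b : (F.B lam).B} (hb : F.Ht lam b n) {v : C.Aut}
    (hv : F.Min lam b v) {j : C.I} (hd : C.Desc j v) :
    F.KeyP lam ((F.B lam).emax j b) (C.s j * v) := by
  have hvW := in_isW F hv.1
  have h1 : F.In lam ((F.B lam).emax j b) (C.s j * v) := (in_desc F hvW hd).mp hv.1
  have hlen := len_desc F hvW hd
  obtain ⟨n', hn', hn2⟩ := ht_emax F hb j
  have heps : (F.B lam).eps j b ≠ 0 := by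
    intro h0
    have h2 : (F.B lam).e j b = none := by
      by_contra hcon
      obtain ⟨b', hb'⟩ := Option.ne_none_iff_exists'.mp hcon
      have := (F.B lam).eps_some j _ _ hb'
      omega
    rw [(F.B lam).emax_none j b h2] at h1
    have := hv.2 _ h1
    omega
  obtain ⟨ka, hka⟩ := IH n' (by omega) lam _ hn'
  have h2 := hka.2 _ h1
  have h3 := hv.2 _ (in_upw F j hka.1)
  have h4 := upw_len F (in_isW F hka.1) j
  have h5 := le_eq h2 (by omega)
  rw [← h5]
  exact hka

theorem Min_Th {lam mu : C.I → ℕ} {c : (F.B mu).B} {b : (F.B lam).B} (h : F.Th lam mu c b)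
    {v : C.Aut} (hv : F.Min lam b v) : F.Min mu c v⁻¹ := by
  refine ⟨(In_Th F h v).mp hv.1, ?_⟩
  intro w hw
  have h1 : F.In lam b w⁻¹ := by
    rw [In_Th F h, inv_inv]
    exact hw
  have h2 := hv.2 _ h1
  rwa [len_inv' (in_isW F hw), ← len_inv' (in_isW F hv.1)] at h2

theorem lemA' {n : ℕ} (IH : ∀ m < n, ∀ (lam : C.I → ℕ) (b : (F.B lam).B), F.Ht lam b m →
    ∃ ka, F.KeyP lam b ka) {l l0 : C.I → ℕ} {b : (F.B l).B} {b0 : (F.B l0).B} {k : C.I}
    (hD : F.D l l0 k b b0) (hb : F.Ht l b n) {v : C.Aut}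
    (hv : F.Min l b v) (hd : C.Desc k v⁻¹) :
    F.KeyP l0 b0 (v * C.s k) := by
  obtain ⟨mu, c, h1, h2⟩ := hD
  have h3 := lemA F IH (ht_Th F h1 hb) (Min_Th F h1 hv) hd
  have h4 := KeyP_Th F h2 h3
  rwa [mul_inv_rev, inv_inv, s_inv] at h4

theorem square {n : ℕ} (IH : ∀ m < n, ∀ (lam : C.I → ℕ) (b : (F.B lam).B), F.Ht lam b m →
    ∃ ka, F.KeyP lam b ka) {lam : C.I → ℕ} {b : (F.B lam).B} (hb : F.Ht lam b n) {v v' : C.Aut}
    (hv : F.Min lam b v) (hv' : F.Min lam b v') (hne : v ≠ v') {j k : C.I} (hd : C.Desc j v)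
    (hd' : C.Desc k v'⁻¹) : C.s j * v = v' * C.s k := by
  obtain ⟨l, l0, b', b0, hX, hXe, hH, hD, hDe⟩ := dual_step F lam b j k
  have hvW := in_isW F hv.1
  have hvW' := in_isW F hv'.1
  have hMin' : F.Min l b' v' := ⟨(hX _).mp hv'.1, fun w hw => hv'.2 w ((hX w).mpr hw)⟩
  have hx := KeyP_congr F hXe (lemA F IH hb hv hd)
  have hy := lemA' F IH hD (hH n hb) hMin' hd'
  set x := C.s j * v with hxdef
  set y := v' * C.s k with hydef
  have hlx : C.len x + 1 = C.len v := len_desc F hvW hd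
  have hly : C.len y + 1 = C.len v' := by
    have h1 := len_desc F (isW_inv hvW') hd'
    have h2 : (C.s k * v'⁻¹)⁻¹ = v' * C.s k := by rw [mul_inv_rev, inv_inv, s_inv]
    rw [hydef, ← h2, len_inv' (isW_mul (isW_s k) (isW_inv hvW')), ← len_inv' hvW']
    exact h1
  have hvv : C.len v = C.len v' := le_antisymm (hv.2 _ hv'.1) (hv'.2 _ hv.1)
  -- the height of the corner
  obtain ⟨m1, hm1⟩ := exists_ht F l0 b0
  obtain ⟨m2, hm2, hm3⟩ := ht_emax F hm1 j
  obtain ⟨mm, hmm, hmn⟩ : ∃ mm, F.Ht l0 ((F.B l0).emax j b0) mm ∧ mm < n := by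
    obtain ⟨mu, c, h1, h2⟩ := hDe
    obtain ⟨p, hp1, hp2⟩ := ht_emax F (hH n hb) j
    have hq := ht_Th F h1 hp1
    obtain ⟨r, hr1, hr2⟩ := ht_emax F hq k
    have hs := ht_Th F (Th_symm F h2) hr1
    refine ⟨r, hs, ?_⟩
    -- the first step is strict
    have heps : (F.B l).eps j b' ≠ 0 := by
      intro h0
      have h2 : (F.B l).e j b' = none := by
        by_contra hcon
        obtain ⟨b'', hb''⟩ := Option.ne_none_iff_exists'.mp hcon
        have := (F.B l).eps_some j _ _ hb''
        omega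
      have h3 := hx.1
      rw [(F.B l).emax_none j b' h2] at h3
      have := hv.2 _ ((hX _).mpr h3)
      omega
    omega
  obtain ⟨z, hz⟩ := IH mm hmn l0 _ hmm
  have hzW := in_isW F hz.1
  -- z and x
  have h1 : C.Le z x := hz.2 _ (D_in F hDe hx.1)
  have h2 : C.Le x (C.upw k z⁻¹)⁻¹ := hx.2 _ (D_up F hDe hz.1)
  -- z and y
  have h3 : C.Le z y := hz.2 _ (in_emax F j hy.1)
  have h4 : C.Le y (C.upw j z) := hy.2 _ (in_upw F j hz.1)
  have h5 : C.len (C.upw k z⁻¹)⁻¹ ≤ C.len z + 1 := by
    rw [len_inv' (upw_isW (isW_inv hzW) k), ← len_inv' hzW]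
    exact upw_len F (isW_inv hzW) k
  have h6 := upw_len F hzW j
  have h7 := le_len h1
  have h8 := le_len h2
  have h9 := le_len h3
  have h10 := le_len h4
  rcases Nat.lt_or_ge (C.len z) (C.len x) with hlt | hge
  · exfalso
    have e1 : x = (C.upw k z⁻¹)⁻¹ := le_eq h2 (by omega)
    have e2 : y = C.upw j z := le_eq h4 (by omega)
    have e3 : C.upw k z⁻¹ = C.s k * z⁻¹ := by
      unfold Cartan.upw
      rw [if_neg]
      intro hcon
      have : C.upw k z⁻¹ = z⁻¹ := by
        unfold Cartan.upw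
        rw [if_pos hcon]
      rw [this, inv_inv] at e1
      rw [e1] at hlt
      omega
    have e4 : C.upw j z = C.s j * z := by
      unfold Cartan.upw
      rw [if_neg]
      intro hcon
      have : C.upw j z = z := by
        unfold Cartan.upw
        rw [if_pos hcon]
      rw [this] at e2
      rw [e2] at hly
      omega
    rw [e3, mul_inv_rev, inv_inv, s_inv] at e1
    rw [e4] at e2
    apply hne
    have e5 : v = C.s j * (z * C.s k) := by rw [← e1, hxdef, s_s_mul]
    have e6 : v' = C.s j * z * C.s k := by rw [← e2, hydef, mul_s_s]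
    rw [e5, e6, mul_assoc]
  · have e1 : z = x := le_eq h1 hge
    have e2 : z = y := le_eq h3 (by omega)
    rw [← e1, ← e2]

include F in
/-- two elements related by folding form an alternating pattern -/
theorem pattern (N : ℕ) : ∀ (v v' x x' : C.Aut) (j j' k k' : C.I), C.len v = N → C.IsW x →
    C.IsW x' → C.len v' = C.len v → C.len x + 1 = C.len v → C.len x' + 1 = C.len v →
    v = C.s j * x → v = x' * C.s k → v' = C.s j' * x' → v' = x * C.s k' →
    ∃ (h : C.Aut) (T : ℕ), C.IsW h ∧ v = h * C.wprod (alt k k' (T + 1)) ∧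
      v' = h * C.wprod (alt k' k (T + 1)) ∧ C.len h + (T + 1) = C.len v := by
  induction N with
  | zero =>
    intro v v' x x' j j' k k' hN hx hx' hv' hlx hlx' h1 h2 h3 h4
    omega
  | succ N ih =>
    intro v v' x x' j j' k k' hN hx hx' hv' hlx hlx' h1 h2 h3 h4
    by_cases hxx : x = x'
    · refine ⟨x, 0, hx, ?_, ?_, by omega⟩
      · rw [h2, hxx, alt_succ, alt_zero, List.nil_append, wprod_single]
      · rw [h4, alt_succ, alt_zero, List.nil_append, wprod_single]
    · have e1 : C.s j' * (x * C.s k') = x' := by rw [← h4, h3, s_s_mul]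
      have e2 : C.s j * (x' * C.s k) = x := by rw [← h2, h1, s_s_mul]
      have hd1 : C.Desc j' x := by
        by_contra hcon
        have h5 := len_not_desc F hx hcon
        have h6 := fold_eq F hx j' k' h5 (by rw [← h4]; omega) (by rw [e1]; omega)
        apply hxx
        have h7 : C.s j' * (C.s j' * x) = x' := by rw [h6, e1]
        rw [s_s_mul] at h7
        exact h7
      have hd2 : C.Desc j x' := by
        by_contra hcon
        have h5 := len_not_desc F hx' hcon
        have h6 := fold_eq F hx' j k h5 (by rw [← h2]; omega) (by rw [e2]; omega)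
        apply hxx
        have h7 : C.s j * (C.s j * x') = x := by rw [h6, e2]
        rw [s_s_mul] at h7
        exact h7.symm
      have hl1 := len_desc F hx hd1
      have hl2 := len_desc F hx' hd2
      obtain ⟨h, T, hh, e3, e4, e5⟩ := ih x' x (C.s j * x') (C.s j' * x) j j' k' k (by omega)
        (isW_mul (isW_s j) hx') (isW_mul (isW_s j') hx) (by omega) (by omega) (by omega)
        (by rw [s_s_mul]) (by rw [mul_assoc, e1]) (by rw [s_s_mul]) (by rw [mul_assoc, e2])
      refine ⟨h, T + 1, hh, ?_, ?_, by omega⟩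
      · rw [h2, e3, alt_succ k k' (T + 1), wprod_append, wprod_single, mul_assoc]
      · rw [h4, e4, alt_succ k' k (T + 1), wprod_append, wprod_single, mul_assoc]

include F in
theorem exists_desc {v : C.Aut} (hv : C.IsW v) (hl : 0 < C.len v) : ∃ j, C.Desc j v := by
  obtain ⟨l, hl2⟩ := isW_reduced hv
  cases l with
  | nil =>
    have := hl2.2
    simp at this
    omega
  | cons i l => exact ⟨i, (reduced_cons F hl2).2⟩

theorem len_wprod_mul_le {h : C.Aut} (hh : C.IsW h) (l : List C.I) :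
    C.len (h * C.wprod l) ≤ C.len h + C.len (C.wprod l) := by
  obtain ⟨m, hm⟩ := isW_reduced hh
  obtain ⟨l', hl'⟩ := exists_reduced l
  have h1 := len_le (m ++ l')
  rw [wprod_append, hm.1, hl'.1, List.length_append, hm.2, hl'.2] at h1
  exact h1

/-- minimal elements are unique -/
theorem min_unique {n : ℕ} (IH : ∀ m < n, ∀ (lam : C.I → ℕ) (b : (F.B lam).B), F.Ht lam b m →
    ∃ ka, F.KeyP lam b ka) {lam : C.I → ℕ} {b : (F.B lam).B} (hb : F.Ht lam b n) {v v' : C.Aut}
    (hv : F.Min lam b v) (hv' : F.Min lam b v') : v = v' := by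
  by_contra hne
  have hvW := in_isW F hv.1
  have hvW' := in_isW F hv'.1
  have hvv : C.len v = C.len v' := le_antisymm (hv.2 _ hv'.1) (hv'.2 _ hv.1)
  have hpos : 0 < C.len v := by
    rcases Nat.eq_zero_or_pos (C.len v) with h0 | h0
    · exfalso
      obtain ⟨l, hl⟩ := isW_reduced hvW
      obtain ⟨l', hl'⟩ := isW_reduced hvW'
      have h1 := hl.2
      have h2 := hl'.2
      rw [h0, List.length_eq_zero_iff] at h1
      rw [← hvv, h0, List.length_eq_zero_iff] at h2
      apply hne
      rw [← hl.1, ← hl'.1, h1, h2]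
    · exact h0
  obtain ⟨j, hj⟩ := exists_desc F hvW hpos
  obtain ⟨j', hj'⟩ := exists_desc F hvW' (by omega)
  obtain ⟨k, hk⟩ := exists_desc F (isW_inv hvW) (by rw [len_inv' hvW]; omega)
  obtain ⟨k', hk'⟩ := exists_desc F (isW_inv hvW') (by rw [len_inv' hvW']; omega)
  have e1 := square F IH hb hv hv' hne hj hk'
  have e2 := square F IH hb hv' hv (Ne.symm hne) hj' hk
  have hlx := len_desc F hvW hj
  have hlx' := len_desc F hvW' hj'
  obtain ⟨h, T, hh, p1, p2, p3⟩ := pattern F (C.len v) v v' (C.s j * v) (C.s j' * v') j j' k k' rfl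
    (isW_mul (isW_s j) hvW) (isW_mul (isW_s j') hvW') hvv.symm hlx (by omega)
    (by rw [s_s_mul]) (by rw [e2, mul_s_s]) (by rw [s_s_mul]) (by rw [e1, mul_s_s])
  obtain ⟨m, hm⟩ := isW_reduced hh
  have hred : ∀ a a' : C.I, ∀ u : C.Aut, u = h * C.wprod (alt a a' (T + 1)) →
      C.len u = C.len v → C.Reduced (m ++ alt a a' (T + 1)) u ∧
        C.Reduced (alt a a' (T + 1)) (C.wprod (alt a a' (T + 1))) := by
    intro a a' u hu hlu
    refine ⟨⟨by rw [wprod_append, hm.1, hu], ?_⟩, rfl, ?_⟩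
    · rw [List.length_append, alt_length, hm.2, hlu]
      exact p3
    · rw [alt_length]
      have h1 := len_wprod_mul_le hh (alt a a' (T + 1))
      rw [← hu] at h1
      have h2 := len_le (alt a a' (T + 1))
      rw [alt_length] at h2
      omega
  obtain ⟨r1, r2⟩ := hred k k' v p1 rfl
  obtain ⟨r3, r4⟩ := hred k' k v' p2 hvv.symm
  have s1 := (in_iff F r1).mp hv.1
  have s2 := (in_iff F r3).mp hv'.1
  unfold Family.Str at s1 s2
  rw [strip_append] at s1 s2
  have hprod : C.wprod (alt k k' (T + 1)) ≠ C.wprod (alt k' k (T + 1)) := by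
    intro hcon
    apply hne
    rw [p1, p2, hcon]
  have hfin : ∀ a a' : C.I, F.Str lam (alt a a' T) ((F.B lam).strip m b) → False := by
    intro a a' hs
    have h1 : F.Str lam (m ++ alt a a' T) b := by
      unfold Family.Str at hs ⊢
      rw [strip_append, hs]
    obtain ⟨w, hw1, hw2⟩ := in_of_str F _ _ h1
    have h2 := hv.2 _ hw2
    rw [List.length_append, alt_length, hm.2] at hw1
    omega
  rcases rank_two F lam ((F.B lam).strip m b) k k' T _ _ r2 r4 hprod s1 s2 with h1 | h1
  · exact hfin _ _ h1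
  · exact hfin _ _ h1

/-- every element of `B_λ` has a smallest Demazure crystal -/
theorem exists_keyP (n : ℕ) : ∀ (lam : C.I → ℕ) (b : (F.B lam).B), F.Ht lam b n →
    ∃ ka, F.KeyP lam b ka := by
  induction n using Nat.strong_induction_on with
  | _ n IH =>
    intro lam b hb
    -- an element of minimal length
    obtain ⟨w0, hw0⟩ := exists_in F lam b
    have hex : ∃ p, ∃ w, F.In lam b w ∧ C.len w = p := ⟨_, w0, hw0, rfl⟩
    obtain ⟨ka, hka, hkl⟩ := Nat.find_spec hex
    have hmin : F.Min lam b ka := by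
      refine ⟨hka, ?_⟩
      intro w hw
      rw [hkl]
      exact Nat.find_min' hex ⟨w, hw, rfl⟩
    refine ⟨ka, hka, ?_⟩
    by_contra hcon
    push Not at hcon
    have hex2 : ∃ p, ∃ w, F.In lam b w ∧ ¬ C.Le ka w ∧ C.len w = p := by
      obtain ⟨w, h1, h2⟩ := hcon
      exact ⟨_, w, h1, h2, rfl⟩
    obtain ⟨v, hv, hnle, hvl⟩ := Nat.find_spec hex2
    have hvmin : ∀ w, F.In lam b w → ¬ C.Le ka w → C.len v ≤ C.len w := by
      intro w h1 h2
      rw [hvl]
      exact Nat.find_min' hex2 ⟨w, h1, h2, rfl⟩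
    have hvW := in_isW F hv
    have hkW := in_isW F hka
    -- v is not 1
    have hpos : 0 < C.len v := by
      rcases Nat.eq_zero_or_pos (C.len v) with h0 | h0
      · exfalso
        have h1 := hmin.2 _ hv
        obtain ⟨l, hl⟩ := isW_reduced hvW
        obtain ⟨l', hl'⟩ := isW_reduced hkW
        have h2 := hl.2
        have h3 := hl'.2
        have h4 : C.len ka = 0 := by omega
        rw [h0, List.length_eq_zero_iff] at h2
        rw [h4, List.length_eq_zero_iff] at h3
        apply hnle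
        have h5 : ka = v := by rw [← hl.1, ← hl'.1, h2, h3]
        rw [h5]
        exact le_refl' hvW
      · exact h0
    obtain ⟨j, hj⟩ := exists_desc F hvW hpos
    have hlj := len_desc F hvW hj
    have hin : F.In lam ((F.B lam).emax j b) (C.s j * v) := (in_desc F hvW hj).mp hv
    have heps : (F.B lam).eps j b ≠ 0 := by
      intro h0
      have h2 : (F.B lam).e j b = none := by
        by_contra hcon
        obtain ⟨b', hb'⟩ := Option.ne_none_iff_exists'.mp hcon
        have := (F.B lam).eps_some j _ _ hb'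
        omega
      rw [(F.B lam).emax_none j b h2] at hin
      apply hnle
      have h3 : C.Le ka (C.s j * v) := by
        by_contra h4
        have := hvmin _ hin h4
        omega
      exact le_trans' F h3 (le_s F hvW hj)
    obtain ⟨n', hn', hn2⟩ := ht_emax F hb j
    obtain ⟨x, hx⟩ := IH n' (by omega) lam _ hn'
    have hxW := in_isW F hx.1
    have h1 : C.Le x (C.s j * v) := hx.2 _ hin
    have h2 : C.Le x v := le_trans' F h1 (le_s F hvW hj)
    have h3 : C.Le (C.upw j x) v := le_upw F hvW hxW h2 hj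
    have h4 : F.In lam b (C.upw j x) := in_upw F j hx.1
    have h5 : C.len v ≤ C.len (C.upw j x) := by
      apply hvmin _ h4
      intro h6
      exact hnle (le_trans' F h6 h3)
    have h6 := upw_len F hxW j
    have h7 := le_len h1
    have h8 : x = C.s j * v := le_eq h1 (by omega)
    -- lengths
    have h9 : C.Le x ka := hx.2 _ (in_emax F j hka)
    have h10 : C.len v ≤ C.len ka := by
      by_contra h11
      have h12 : x = ka := le_eq h9 (by rw [h8]; omega)
      apply hnle
      rw [← h12]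
      exact h2
    have hvM : F.Min lam b v := ⟨hv, fun w hw => h10.trans (hmin.2 w hw)⟩
    have h11 := min_unique F IH hb hmin hvM
    apply hnle
    rw [h11]
    exact le_refl' hvW

theorem exists_key (lam : C.I → ℕ) (b : (F.B lam).B) : ∃ ka, F.KeyP lam b ka := by
  obtain ⟨n, hn⟩ := exists_ht F lam b
  exact exists_keyP F n lam b hn

end Pool.Agent.H59.KY
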