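import Pool.Agent.H38.KE.Word

/-!
The dual stripping operators and the commuting square.
-/

set_option autoImplicit false

open scoped Classical

namespace Pool.Agent.H59.KY

variable {C : Cartan} (F : Family C)

/-- `b0` is obtained from `b` by the dual stripping operator in direction `k` -/
def Family.D (l l0 : C.I → ℕ) (k : C.I) (b : (F.B l).B) (b0 : (F.B l0).B) : Prop :=
  ∃ (mu : C.I → ℕ) (c : (F.B mu).B), F.Th l mu c b ∧ F.Th l0 mu ((F.B mu).emax k c) b0

/-- `kappa` is the smallest element with `b ∈ B_kappa(λ)` -/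
def Family.KeyP (lam : C.I → ℕ) (b : (F.B lam).B) (ka : C.Aut) : Prop :=
  F.In lam b ka ∧ ∀ w, F.In lam b w → C.Le ka w

/-- height -/
def Family.Ht (lam : C.I → ℕ) (b : (F.B lam).B) (n : ℕ) : Prop :=
  ∃ m : C.I → ℕ, (F.B lam).wt b = C.dom lam - C.root (fun j => (m j : ℤ)) ∧ ∑ j, m j = n

theorem exists_ht (lam : C.I → ℕ) (b : (F.B lam).B) : ∃ n, F.Ht lam b n := by
  obtain ⟨m, hm⟩ := wt_le F lam b
  exact ⟨∑ j, m j, m, hm, rfl⟩

theorem ht_emax {lam : C.I → ℕ} {b : (F.B lam).B} {n : ℕ} (h : F.Ht lam b n) (j : C.I) :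
    ∃ n', F.Ht lam ((F.B lam).emax j b) n' ∧ n' + (F.B lam).eps j b = n := by
  obtain ⟨m, hm, hn⟩ := h
  obtain ⟨m', hm'⟩ := wt_le F lam ((F.B lam).emax j b)
  refine ⟨∑ j, m' j, ⟨m', hm', rfl⟩, ?_⟩
  have h1 := (F.B lam).wt_emax j b
  rw [hm', hm] at h1
  have h2 : C.root (fun i => (m i : ℤ)) = C.root ((fun i => (m' i : ℤ)) +
      Pi.single j ((F.B lam).eps j b : ℤ)) := by
    rw [root_add, root_single]
    have h3 : C.dom lam - C.root (fun i => (m' i : ℤ)) - (C.dom lam -
        C.root (fun i => (m i : ℤ)) + ((F.B lam).eps j b : ℤ) • C.al j) = 0 := by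
      rw [h1, sub_self]
    have h4 : C.root (fun i => (m i : ℤ)) - (C.root (fun i => (m' i : ℤ)) +
      ((F.B lam).eps j b : ℤ) • C.al j) = C.dom lam - C.root (fun i => (m' i : ℤ)) - (C.dom lam -
        C.root (fun i => (m i : ℤ)) + ((F.B lam).eps j b : ℤ) • C.al j) := by abel
    rw [h3] at h4
    exact sub_eq_zero.mp h4
  have h3 := root_inj h2
  have h4 : ∀ i, m i = m' i + (Pi.single j ((F.B lam).eps j b) : C.I → ℕ) i := by
    intro i
    have h5 := congrFun h3 i
    rw [Pi.add_apply] at h5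
    by_cases hi : i = j
    · subst hi
      rw [Pi.single_eq_same] at h5 ⊢
      omega
    · rw [Pi.single_eq_of_ne hi] at h5 ⊢
      omega
  rw [← hn, Finset.sum_congr rfl (fun i _ => h4 i), Finset.sum_add_distrib,
    Finset.sum_pi_single' j _ Finset.univ]
  simp

theorem ht_Th {lam mu : C.I → ℕ} {c : (F.B mu).B} {b : (F.B lam).B} (h : F.Th lam mu c b)
    {n : ℕ} (hb : F.Ht lam b n) : F.Ht mu c n := by
  obtain ⟨m, hm, hn⟩ := hb
  refine ⟨m, ?_, hn⟩
  have h1 := Th_wt F h
  rw [hm] at h1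
  have h2 : (F.B mu).wt c = (F.B mu).wt c + C.dom lam - C.dom lam := by abel
  rw [h2, ← h1]
  abel

/-- the square -/
theorem dual_step (lam : C.I → ℕ) (b : (F.B lam).B) (j k : C.I) :
    ∃ (l l0 : C.I → ℕ) (b' : (F.B l).B) (b0 : (F.B l0).B),
      (∀ w, F.In lam b w ↔ F.In l b' w) ∧
      (∀ w, F.In lam ((F.B lam).emax j b) w ↔ F.In l ((F.B l).emax j b') w) ∧
      (∀ n, F.Ht lam b n → F.Ht l b' n) ∧
      F.D l l0 k b' b0 ∧ F.D l l0 k ((F.B l).emax j b') ((F.B l0).emax j b0) := by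
  obtain ⟨mu, c, hc⟩ : ∃ (mu : C.I → ℕ) (c : (F.B mu).B), F.Th lam mu c b := by
    obtain ⟨c, hc⟩ := Th_exists F (fun i => (F.B lam).eps i b) lam b (fun i => le_rfl)
    exact ⟨_, c, Th_symm F hc⟩
  set l0 : C.I → ℕ := fun i => if i = k then 0 else
    (F.B mu).eps i ((F.B mu).emax k c) + lam i with hl0
  set n : ℕ := (F.B mu).eps k c + lam k with hn
  set l : C.I → ℕ := l0 + Pi.single k n with hl
  set nu : C.I → ℕ := fun i => l i - lam i with hnu
  have hl0k : l0 k = 0 := by simp only [hl0, if_pos]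
  have hlnu : l = lam + nu := by
    funext i
    have h1 : lam i ≤ l i := by
      rw [hl, Pi.add_apply]
      by_cases hi : i = k
      · subst hi
        rw [Pi.single_eq_same]
        omega
      · have : l0 i = (F.B mu).eps i ((F.B mu).emax k c) + lam i := by
          simp only [hl0, if_neg hi]
        rw [this]
        omega
    rw [Pi.add_apply]
    change l i = lam i + (l i - lam i)
    omega
  obtain ⟨b1, hb1, hJ1⟩ := Th_stable F hc l nu hlnu
  obtain ⟨J, hJ⟩ := J_exists F l lam nu hlnu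
  have hJb := hJ1 J hJ
  have hstr : ∀ (x : (F.B lam).B) (x1 : (F.B l).B), J.map x1 = (F.hw nu, x) → ∀ w,
      (F.In lam x w ↔ F.In l x1 w) := by
    intro x x1 hx w
    unfold Family.In
    refine exists_congr fun m => and_congr_right fun _ => ?_
    have h1 := J.strip_map m x1
    rw [hx, strip_tensor_hw] at h1
    unfold Family.Str
    constructor
    · intro h
      rw [h] at h1
      exact eq_hw_of_map F J _ h1.symm
    · intro h
      rw [h, hJ] at h1
      exact (Prod.mk.inj h1).2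
  have hJe : J.map ((F.B l).emax j b1) = (F.hw nu, (F.B lam).emax j b) := by
    have h1 := J.strip_map [j] b1
    rw [hJb, strip_tensor_hw] at h1
    exact h1.symm
  -- the string form
  have hstring := Th_string F c k n l l0 hl hl0k (by rw [hn]; omega) (by
    intro i
    by_cases hi : i = k
    · subst hi
      rw [(F.B mu).eps_emax]
      exact Nat.zero_le _
    · simp only [hl0, if_neg hi]
      omega)
  obtain ⟨b', b0, hb', hb0, hJ'⟩ := hstring
  have hbb := Th_unique F hb' hb1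
  subst hbb
  refine ⟨l, l0, b', b0, hstr b b' hJb, hstr _ _ hJe, ?_, ⟨mu, c, hb', hb0⟩, ?_⟩
  · intro n' hn'
    exact ht_Th F (Th_symm F hb') (ht_Th F hc hn')
  -- the second vertical arrow
  obtain ⟨K, hK⟩ := J_exists F l l0 (Pi.single k n) hl
  have hKb := hJ' K hK
  set m : ℕ := (F.B mu).eps k c with hm
  have hKe : K.map ((F.B l).emax j b') =
      ((F.B (Pi.single k n)).down k ((F.B l0).left k [j] m b0) (F.hw (Pi.single k n)),
        (F.B l0).emax j b0) := by
    have h1 := K.strip_map [j] b'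
    rw [hKb, strip_tensor F l0 k n [j] m (by rw [hn]; omega) b0] at h1
    exact h1.symm
  set m' : ℕ := (F.B l0).left k [j] m b0 with hm'
  have hmm : m' ≤ m := left_le (F.B l0) k [j] m b0
  set d := (F.B l0).emax j b0 with hd
  obtain ⟨mu2, c0, hc0, hmu2⟩ : ∃ (mu2 : C.I → ℕ) (c0 : (F.B mu2).B), F.Th l0 mu2 c0 d ∧
      mu2 k = (F.B l0).eps k d + m' + ((F.B l0).wt d k).natAbs := by
    obtain ⟨c0, hc0⟩ := Th_exists F
      (fun i => (F.B l0).eps i d + m' + ((F.B l0).wt d i).natAbs) l0 d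
      (fun i => by omega)
    exact ⟨_, c0, Th_symm F hc0, rfl⟩
  have heps0 : (F.B mu2).eps k c0 = 0 := by
    have := Th_eps F hc0 k
    omega
  have hphi : m' ≤ (F.B mu2).phi k c0 := by
    have h1 := congrFun (Th_wt F hc0) k
    rw [Pi.add_apply, Pi.add_apply] at h1
    have h2 := (F.B mu2).phi_eps k c0
    have h3 : C.dom l0 k = 0 := by
      unfold Cartan.dom
      rw [hl0k]
      rfl
    have h4 : C.dom mu2 k = ((F.B l0).eps k d + m' + ((F.B l0).wt d k).natAbs : ℕ) := by
      unfold Cartan.dom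
      rw [hmu2]
    have h5 : -((F.B l0).wt d k) ≤ (((F.B l0).wt d k).natAbs : ℤ) := by omega
    rw [h3, h4] at h1
    push_cast at h1 h5
    omega
  set c1 := (F.B mu2).down k m' c0 with hc1
  have heps1 : (F.B mu2).eps k c1 = m' := by
    rw [hc1, (F.B mu2).eps_down k m' c0 hphi, heps0, zero_add]
  have hemax1 : (F.B mu2).emax k c1 = c0 := by
    have h1 := (F.B mu2).up_down k m' m' c0 hphi le_rfl
    rw [Nat.sub_self] at h1
    unfold Crystal.emax
    rw [heps1, hc1, h1]
    rfl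
  have hs2 := Th_string F c1 k n l l0 hl hl0k (by rw [heps1]; omega) (by
    intro i
    rw [hemax1]
    exact Th_eps F hc0 i)
  obtain ⟨b2, b02, hb2, hb02, hJ2⟩ := hs2
  rw [hemax1] at hb02
  have h1 := Th_unique F hb02 hc0
  subst h1
  have h2 := hJ2 K hK
  rw [heps1] at h2
  have h3 : b2 = (F.B l).emax j b' := by
    obtain ⟨ll, hll⟩ := F.gen l b2
    apply mor_inj F l K ll b2 _ hll
    rw [h2, hKe]
  refine ⟨mu2, c1, ?_, ?_⟩
  · rw [← h3]
    exact hb2
  · rw [hemax1]
    exact hb02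

end Pool.Agent.H59.KY
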