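import Pool.Agent.H59.KY.Final

/-!
Weyl group facts: positivity of the real roots (from the crystals), lengths, exchange.
-/

set_option autoImplicit false

open scoped Classical

namespace Pool.Agent.H59.KY

variable {C : Cartan}

/-- positive elements of the root lattice -/
def Cartan.Pos (C : Cartan) (x : C.Wt) : Prop := ∃ n : C.I → ℕ, x = C.root (fun j => (n j : ℤ))

/-- `w` is a product of simple reflections -/
def Cartan.IsW (C : Cartan) (w : C.Aut) : Prop := ∃ l, C.wprod l = w

theorem root_sub (m n : C.I → ℤ) : C.root (m - n) = C.root m - C.root n := by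
  rw [sub_eq_add_neg, root_add, root_neg, sub_eq_add_neg]

theorem root_inj {m n : C.I → ℤ} (h : C.root m = C.root n) : m = n := by
  have h1 : C.root (m - n) = 0 := by rw [root_sub, h, sub_self]
  exact sub_eq_zero.mp (root_indep _ h1)

theorem root_single_one (i : C.I) : C.root (Pi.single i 1) = C.al i := by
  rw [root_single, one_smul]

theorem not_pos_neg {x : C.Wt} (h1 : C.Pos x) (h2 : C.Pos (-x)) : x = 0 := by
  obtain ⟨n, hn⟩ := h1
  obtain ⟨m, hm⟩ := h2
  have h3 : C.root ((fun j => (n j : ℤ)) + (fun j => (m j : ℤ))) = 0 := by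
    rw [root_add, ← hn, ← hm, add_neg_cancel]
  have h4 := root_indep _ h3
  have h5 : (fun j => (n j : ℤ)) = 0 := by
    funext j
    have h6 := congrFun h4 j
    simp only [Pi.add_apply, Pi.zero_apply] at h6 ⊢
    omega
  rw [hn, h5]
  have h7 := root_neg (C := C) 0
  rw [neg_zero] at h7
  have h8 := root_add (C := C) 0 0
  rw [add_zero] at h8
  exact left_eq_add.mp h8

theorem root_zero : C.root 0 = 0 := by
  have h8 := root_add (C := C) 0 0
  rw [add_zero] at h8
  exact left_eq_add.mp h8

/-- reflection of root coordinates -/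
noncomputable def rs (i : C.I) (n : C.I → ℤ) : C.I → ℤ := n - Pi.single i (C.root n i)

theorem root_rs (i : C.I) (n : C.I → ℤ) : C.root (rs i n) = C.s i (C.root n) := by
  unfold rs
  rw [root_sub, root_single, s_apply]

noncomputable def rw' (l : List C.I) (n : C.I → ℤ) : C.I → ℤ := l.foldr rs n

theorem root_rw' (l : List C.I) (n : C.I → ℤ) : C.root (rw' l n) = C.wprod l (C.root n) := by
  induction l with
  | nil => rfl
  | cons i l ih =>
    rw [wprod_cons]
    change C.root (rs i (rw' l n)) = C.s i (C.wprod l (C.root n))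
    rw [root_rs, ih]

/-- an invariant form -/
noncomputable def form (d : C.I → ℚ) (n : C.I → ℤ) (x : C.Wt) : ℚ := ∑ i, d i * n i * x i

theorem form_single (d : C.I → ℚ) (i : C.I) (c : ℤ) (x : C.Wt) :
    form d (Pi.single i c) x = d i * c * x i := by
  unfold form
  rw [Finset.sum_eq_single i]
  · rw [Pi.single_eq_same]
  · intro b _ hb
    rw [Pi.single_eq_of_ne hb]
    simp
  · intro h
    exact absurd (Finset.mem_univ i) h

theorem form_rs (d : C.I → ℚ) (hd : ∀ i j, d i * C.A i j = d j * C.A j i) (i : C.I)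
    (n : C.I → ℤ) (x : C.Wt) : form d (rs i n) (C.s i x) = form d n x := by
  have hroot : (C.root n i : ℚ) = ∑ j, (n j : ℚ) * (C.A i j : ℚ) := by
    have h0 : C.root n i = ∑ j, n j * C.A i j := by
      unfold Cartan.root
      rw [Finset.sum_apply]
      rfl
    rw [h0]
    push_cast
    rfl
  have h1 : form d n (C.al i) = d i * C.root n i := by
    unfold form Cartan.al
    rw [hroot, Finset.mul_sum]
    refine Finset.sum_congr rfl fun j _ => ?_
    have := hd j i
    linear_combination (n j : ℚ) * this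
  have h2 : form d (rs i n) (C.s i x) = form d n (C.s i x) -
      form d (Pi.single i (C.root n i)) (C.s i x) := by
    unfold form rs
    rw [← Finset.sum_sub_distrib]
    refine Finset.sum_congr rfl fun j _ => ?_
    rw [Pi.sub_apply]
    push_cast
    ring
  have h3 : form d n (C.s i x) = form d n x - x i * form d n (C.al i) := by
    unfold form
    rw [Finset.mul_sum, ← Finset.sum_sub_distrib]
    refine Finset.sum_congr rfl fun j _ => ?_
    rw [s_apply, Pi.sub_apply, Pi.smul_apply, smul_eq_mul]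
    push_cast
    ring
  have h4 : ((C.s i x) i : ℚ) = - x i := by
    rw [s_apply, Pi.sub_apply, Pi.smul_apply, smul_eq_mul]
    unfold Cartan.al
    rw [C.diag]
    push_cast
    ring
  rw [h2, h3, form_single, h1, h4]
  ring

theorem form_rw' (d : C.I → ℚ) (hd : ∀ i j, d i * C.A i j = d j * C.A j i) (l : List C.I)
    (n : C.I → ℤ) (x : C.Wt) : form d (rw' l n) (C.wprod l x) = form d n x := by
  induction l with
  | nil => rfl
  | cons i l ih =>
    rw [wprod_cons]
    change form d (rs i (rw' l n)) (C.s i (C.wprod l x)) = _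
    rw [form_rs d hd, ih]

theorem conj_of_eq (l : List C.I) (i j : C.I) (h : C.wprod l (C.al j) = C.al i) :
    C.wprod l * C.s j = C.s i * C.wprod l := by
  obtain ⟨d, hd0, hd, -⟩ := C.pos
  have h1 : rw' l (Pi.single j 1) = Pi.single i 1 := by
    apply root_inj
    rw [root_rw', root_single_one, root_single_one, h]
  have h2 : ∀ x, d i * C.wprod l x i = d j * x j := by
    intro x
    have h3 := form_rw' d hd l (Pi.single j 1) x
    rw [h1, form_single, form_single] at h3
    simpa using h3
  have h3 : d i = d j := by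
    have h4 := h2 (C.al j)
    rw [h] at h4
    unfold Cartan.al at h4
    rw [C.diag, C.diag] at h4
    have : (2 : ℤ) = 2 := rfl
    push_cast at h4
    linarith
  apply LinearEquiv.ext
  intro x
  change C.wprod l (C.s j x) = C.s i (C.wprod l x)
  rw [s_apply, s_apply, map_sub, map_smul, h]
  congr 2
  have h4 := h2 x
  rw [h3] at h4
  have h5 := mul_left_cancel₀ (ne_of_gt (hd0 j)) h4
  exact_mod_cast h5.symm

theorem wprod_inv_rev (l : List C.I) (x : C.Wt) : C.wprod l.reverse (C.wprod l x) = x := by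
  rw [wprod_reverse]
  change ((C.wprod l)⁻¹ * C.wprod l) x = x
  rw [inv_mul_cancel]
  rfl

theorem isW_one : C.IsW 1 := ⟨[], rfl⟩

theorem isW_inv {w : C.Aut} (h : C.IsW w) : C.IsW w⁻¹ := by
  obtain ⟨l, rfl⟩ := h
  exact ⟨l.reverse, wprod_reverse l⟩

theorem isW_mul {w w' : C.Aut} (h : C.IsW w) (h' : C.IsW w') : C.IsW (w * w') := by
  obtain ⟨l, rfl⟩ := h
  obtain ⟨l', rfl⟩ := h'
  exact ⟨l ++ l', wprod_append l l'⟩

theorem isW_s (i : C.I) : C.IsW (C.s i) := ⟨[i], wprod_single i⟩

theorem isW_reduced {w : C.Aut} (h : C.IsW w) : ∃ l, C.Reduced l w := by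
  obtain ⟨l, rfl⟩ := h
  exact exists_reduced l

theorem isW_of_reduced {l : List C.I} {w : C.Aut} (h : C.Reduced l w) : C.IsW w := ⟨l, h.1⟩

theorem w_al_ne (w : C.Aut) (i : C.I) : w (C.al i) ≠ 0 := by
  intro h
  apply al_ne_zero i
  have h1 : w.symm (w (C.al i)) = w.symm 0 := by rw [h]
  rw [LinearEquiv.symm_apply_apply, map_zero] at h1
  exact h1

/-- real roots are positive or negative -/
theorem pos_or_neg (F : Family C) {w : C.Aut} (hw : C.IsW w) (i : C.I) :
    C.Pos (w (C.al i)) ∨ C.Pos (-(w (C.al i))) := by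
  obtain ⟨l, rfl⟩ := hw
  -- a fundamental weight which sees the root
  obtain ⟨j, hj⟩ : ∃ j, C.wprod l.reverse (C.dom (Pi.single j 1)) i ≠ 0 := by
    by_contra hcon
    push Not at hcon
    have h1 : ∀ x : C.Wt, C.wprod l.reverse x i = 0 := by
      intro x
      have h2 : x = ∑ j, x j • C.dom (Pi.single j 1) := by
        funext k
        rw [Finset.sum_apply, Finset.sum_eq_single k]
        · rw [Pi.smul_apply, smul_eq_mul]
          unfold Cartan.dom
          rw [Pi.single_eq_same]
          simp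
        · intro b _ hb
          rw [Pi.smul_apply, smul_eq_mul]
          unfold Cartan.dom
          rw [Pi.single_eq_of_ne (Ne.symm hb)]
          simp
        · intro h
          exact absurd (Finset.mem_univ k) h
      rw [h2, map_sum, Finset.sum_apply]
      apply Finset.sum_eq_zero
      intro j _
      rw [map_smul, Pi.smul_apply, hcon j, smul_zero]
    have h3 := h1 (C.wprod l (C.al i))
    rw [wprod_inv_rev, Cartan.al, C.diag] at h3
    norm_num at h3
  obtain ⟨u, hu⟩ := exists_wt_wprod F (Pi.single j 1) (F.hw (Pi.single j 1)) l.reverse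
  rw [wt_hw_eq] at hu
  have h1 := (F.B (Pi.single j 1)).phi_eps i u
  rw [hu] at h1
  have key : ∀ v : (F.B (Pi.single j 1)).B, ∀ c : ℤ,
      (F.B (Pi.single j 1)).wt v = C.wprod l.reverse (C.dom (Pi.single j 1)) + c • C.al i →
      C.Pos (-(c • C.wprod l (C.al i))) := by
    intro v c hv
    obtain ⟨v', hv'⟩ := exists_wt_wprod F (Pi.single j 1) v l
    have h2 : C.wprod l (C.wprod l.reverse (C.dom (Pi.single j 1))) = C.dom (Pi.single j 1) := by
      have := wprod_inv_rev l.reverse (C.dom (Pi.single j 1))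
      rwa [List.reverse_reverse] at this
    rw [hv, map_add, map_smul, h2] at hv'
    obtain ⟨n, hn⟩ := wt_le F (Pi.single j 1) v'
    rw [hv'] at hn
    refine ⟨n, ?_⟩
    have h3 : c • C.wprod l (C.al i) = - C.root (fun j => (n j : ℤ)) := by
      have h4 := congrArg (fun x => x - C.dom (Pi.single j 1)) hn
      simp only [add_sub_cancel_left] at h4
      rw [h4]
      abel
    rw [h3, neg_neg]
  rcases Nat.eq_zero_or_pos ((F.B (Pi.single j 1)).eps i u) with h2 | h2
  · rcases Nat.eq_zero_or_pos ((F.B (Pi.single j 1)).phi i u) with h3 | h3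
    · exfalso
      apply hj
      rw [h2, h3] at h1
      simpa using h1.symm
    · obtain ⟨v, hv⟩ := (F.B (Pi.single j 1)).f_ne_none i u h3
      have h4 := (F.B (Pi.single j 1)).wt_f i _ _ hv
      left
      have h5 := key v (-1) (by rw [h4, hu, neg_smul, one_smul, sub_eq_add_neg])
      rwa [neg_smul, one_smul, neg_neg] at h5
  · obtain ⟨v, hv⟩ := (F.B (Pi.single j 1)).e_ne_none i u h2
    have h4 := (F.B (Pi.single j 1)).wt_e i _ _ hv
    right
    have h5 := key v 1 (by rw [h4, hu, one_smul])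
    rwa [one_smul] at h5

/-- a simple reflection makes only the simple root negative -/
theorem eq_al_of_neg {l : List C.I} {i j : C.I} (h1 : C.Pos (C.wprod l (C.al j)))
    (h2 : C.Pos (-(C.s i (C.wprod l (C.al j))))) : C.wprod l (C.al j) = C.al i := by
  obtain ⟨n, hn⟩ := h1
  obtain ⟨m, hm⟩ := h2
  rw [hn] at hm ⊢
  rw [← root_rs, ← root_neg] at hm
  have h3 := root_inj hm
  have h4 : (fun j => (n j : ℤ)) = Pi.single i (n i : ℤ) := by
    funext k
    by_cases hk : k = i
    · subst hk
      rw [Pi.single_eq_same]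
    · rw [Pi.single_eq_of_ne hk]
      have h5 := congrFun h3 k
      unfold rs at h5
      rw [Pi.neg_apply, Pi.sub_apply, Pi.single_eq_of_ne hk] at h5
      omega
  have h5 : (n i : ℤ) • C.wprod l.reverse (C.al i) = C.al j := by
    rw [← map_smul, ← root_single, ← h4, ← hn, wprod_inv_rev]
  have h6 : C.wprod l.reverse (C.al i) = C.root (rw' l.reverse (Pi.single i 1)) := by
    rw [root_rw', root_single_one]
  have h7 : (n i : ℤ) * rw' l.reverse (Pi.single i 1) j = 1 := by
    rw [h6, ← root_single_one] at h5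
    have h8 : C.root ((n i : ℤ) • rw' l.reverse (Pi.single i 1)) = C.root (Pi.single j 1) := by
      rw [← h5]
      unfold Cartan.root
      rw [Finset.smul_sum]
      refine Finset.sum_congr rfl fun k _ => ?_
      rw [Pi.smul_apply, smul_eq_mul, mul_smul]
    have h9 := congrFun (root_inj h8) j
    rwa [Pi.smul_apply, smul_eq_mul, Pi.single_eq_same] at h9
  have h8 : (n i : ℤ) = 1 := by
    have h9 := Int.isUnit_iff.mp (IsUnit.of_mul_eq_one _ h7)
    omega
  rw [h4, h8, root_single_one]

/-- exchange -/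
theorem exch (F : Family C) (l : List C.I) (j : C.I) (h : C.Pos (-(C.wprod l (C.al j)))) :
    ∃ l' : List C.I, l'.length + 1 = l.length ∧ C.wprod l' = C.wprod l * C.s j := by
  induction l with
  | nil =>
    exfalso
    have h1 : C.Pos (C.al j) := ⟨Pi.single j 1, by
      rw [← root_single_one]
      congr 1
      funext k
      by_cases hk : k = j
      · subst hk; rw [Pi.single_eq_same, Pi.single_eq_same]; rfl
      · rw [Pi.single_eq_of_ne hk, Pi.single_eq_of_ne hk]; rfl⟩
    exact al_ne_zero j (not_pos_neg h1 h)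
  | cons i l ih =>
    by_cases h1 : C.Pos (-(C.wprod l (C.al j)))
    · obtain ⟨l', h2, h3⟩ := ih h1
      refine ⟨i :: l', ?_, ?_⟩
      · rw [List.length_cons, List.length_cons, h2]
      · rw [wprod_cons, h3, wprod_cons, mul_assoc]
    · have h2 : C.Pos (C.wprod l (C.al j)) := (pos_or_neg F ⟨l, rfl⟩ j).resolve_right h1
      rw [wprod_cons] at h
      have h3 := eq_al_of_neg h2 h
      have h4 := conj_of_eq l i j h3
      refine ⟨l, by rw [List.length_cons], ?_⟩
      rw [wprod_cons, mul_assoc, h4, ← mul_assoc, s_mul_self, one_mul]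

/-- `i` is a left descent of `w` -/
def Cartan.Desc (C : Cartan) (i : C.I) (w : C.Aut) : Prop := C.Pos (-(w⁻¹ (C.al i)))

theorem len_right (F : Family C) {w : C.Aut} (hw : C.IsW w) (j : C.I)
    (h : C.Pos (-(w (C.al j)))) : C.len (w * C.s j) + 1 ≤ C.len w := by
  obtain ⟨l, hl⟩ := isW_reduced hw
  obtain ⟨l', h1, h2⟩ := exch F l j (by rw [hl.1]; exact h)
  rw [← hl.2, ← h1, ← hl.1, ← h2]
  exact Nat.add_le_add_right (len_le l') 1

theorem len_inv' {w : C.Aut} (hw : C.IsW w) : C.len w⁻¹ = C.len w := by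
  obtain ⟨l, hl⟩ := hw
  exact len_inv hl

theorem s_inv (i : C.I) : (C.s i)⁻¹ = C.s i := inv_eq_of_mul_eq_one_right (s_mul_self i)

theorem len_s_mul_le {w : C.Aut} (hw : C.IsW w) (i : C.I) : C.len (C.s i * w) ≤ C.len w + 1 := by
  obtain ⟨l, hl⟩ := isW_reduced hw
  have h1 := len_le (i :: l)
  rwa [wprod_cons, hl.1, List.length_cons, hl.2] at h1

theorem s_s_mul (i : C.I) (w : C.Aut) : C.s i * (C.s i * w) = w := by
  rw [← mul_assoc, s_mul_self, one_mul]

theorem mul_s_s (i : C.I) (w : C.Aut) : w * C.s i * C.s i = w := by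
  rw [mul_assoc, s_mul_self, mul_one]

theorem s_al (i : C.I) : C.s i (C.al i) = - C.al i := by
  rw [s_apply]
  have : C.al i i = 2 := C.diag i
  rw [this, two_smul]
  abel

theorem len_desc (F : Family C) {w : C.Aut} (hw : C.IsW w) {i : C.I} (h : C.Desc i w) :
    C.len (C.s i * w) + 1 = C.len w := by
  have h1 := len_right F (isW_inv hw) i h
  have h2 : (C.s i * w)⁻¹ = w⁻¹ * C.s i := by rw [mul_inv_rev, s_inv]
  rw [← h2, len_inv' (isW_mul (isW_s i) hw), len_inv' hw] at h1
  have h3 := len_s_mul_le (isW_mul (isW_s i) hw) i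
  rw [s_s_mul] at h3
  omega

theorem desc_s (F : Family C) {w : C.Aut} (hw : C.IsW w) (i : C.I) :
    C.Desc i (C.s i * w) ↔ ¬ C.Desc i w := by
  unfold Cartan.Desc
  have h1 : (C.s i * w)⁻¹ (C.al i) = -(w⁻¹ (C.al i)) := by
    rw [mul_inv_rev, s_inv]
    change w⁻¹ (C.s i (C.al i)) = _
    rw [s_al, map_neg]
  rw [h1, neg_neg]
  constructor
  · intro h2 h3
    exact w_al_ne _ _ (not_pos_neg h2 h3)
  · intro h2
    exact (pos_or_neg F (isW_inv hw) i).resolve_right h2

theorem len_not_desc (F : Family C) {w : C.Aut} (hw : C.IsW w) {i : C.I} (h : ¬ C.Desc i w) :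
    C.len (C.s i * w) = C.len w + 1 := by
  have h1 := (desc_s F hw i).mpr h
  have h2 := len_desc F (isW_mul (isW_s i) hw) h1
  rw [s_s_mul] at h2
  omega

theorem desc_iff (F : Family C) {w : C.Aut} (hw : C.IsW w) (i : C.I) :
    C.Desc i w ↔ C.len (C.s i * w) < C.len w := by
  constructor
  · intro h
    have := len_desc F hw h
    omega
  · intro h
    by_contra h1
    have := len_not_desc F hw h1
    omega

/-- pairing with a simple coroot through the invariant form -/
theorem pairing (w : C.Aut) (hw : C.IsW w) (i : C.I) : ∃ d : C.I → ℚ, (∀ i, 0 < d i) ∧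
    ∀ n : C.I → ℤ, C.root n = w⁻¹ (C.al i) → ∀ x : C.Wt,
      d i * (w x) i = ∑ j, d j * n j * x j := by
  obtain ⟨l, rfl⟩ := hw
  obtain ⟨d, hd0, hd, -⟩ := C.pos
  refine ⟨d, hd0, ?_⟩
  intro n hn x
  have h1 := form_rw' d hd l n x
  have h2 : rw' l n = Pi.single i 1 := by
    apply root_inj
    rw [root_rw', hn, root_single_one, ← wprod_reverse]
    have := wprod_inv_rev l.reverse (C.al i)
    rwa [List.reverse_reverse] at this
  rw [h2, form_single] at h1
  simpa [form] using h1

theorem nonneg_of_not_desc (F : Family C) {w : C.Aut} (hw : C.IsW w) {i : C.I}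
    (h : ¬ C.Desc i w) (lam : C.I → ℕ) : 0 ≤ w (C.dom lam) i ∧
      ((∀ j, 0 < lam j) → 0 < w (C.dom lam) i) := by
  obtain ⟨d, hd0, hd⟩ := pairing w hw i
  obtain ⟨n, hn⟩ := (pos_or_neg F (isW_inv hw) i).resolve_right h
  have h1 := hd _ hn.symm (C.dom lam)
  have h2 : ∀ j ∈ Finset.univ, (0 : ℚ) ≤ d j * ((n j : ℤ) : ℚ) * (C.dom lam j : ℚ) := by
    intro j _
    have h3 : (0 : ℚ) ≤ ((n j : ℤ) : ℚ) := by positivity
    have h4 : (0 : ℚ) ≤ (C.dom lam j : ℚ) := by
      unfold Cartan.dom
      positivity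
    exact mul_nonneg (mul_nonneg (hd0 j).le h3) h4
  have h3 : (0 : ℚ) ≤ d i * (w (C.dom lam)) i := by
    rw [h1]
    exact Finset.sum_nonneg h2
  constructor
  · have h4 := nonneg_of_mul_nonneg_right h3 (hd0 i)
    exact_mod_cast h4
  · intro hreg
    have h4 : ∃ j ∈ Finset.univ, (0 : ℚ) < d j * ((n j : ℤ) : ℚ) * (C.dom lam j : ℚ) := by
      have h5 : ∃ j, n j ≠ 0 := by
        by_contra hcon
        push Not at hcon
        have h6 : (fun j => (n j : ℤ)) = 0 := by
          funext j
          rw [hcon j]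
          rfl
        rw [h6, root_zero] at hn
        exact w_al_ne _ _ hn
      obtain ⟨j, hj⟩ := h5
      refine ⟨j, Finset.mem_univ j, ?_⟩
      have h6 : (0 : ℚ) < ((n j : ℤ) : ℚ) := by
        have := Nat.pos_of_ne_zero hj
        exact_mod_cast this
      have h7 : (0 : ℚ) < (C.dom lam j : ℚ) := by
        unfold Cartan.dom
        exact_mod_cast hreg j
      exact mul_pos (mul_pos (hd0 j) h6) h7
    have h5 : (0 : ℚ) < d i * (w (C.dom lam)) i := by
      rw [h1]
      exact Finset.sum_pos' h2 h4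
    have h6 := (mul_pos_iff_of_pos_left (hd0 i)).mp h5
    exact_mod_cast h6

theorem nonpos_of_desc (F : Family C) {w : C.Aut} (hw : C.IsW w) {i : C.I}
    (h : C.Desc i w) (lam : C.I → ℕ) : w (C.dom lam) i ≤ 0 ∧
      ((∀ j, 0 < lam j) → w (C.dom lam) i < 0) := by
  have h1 : ¬ C.Desc i (C.s i * w) := by
    rw [desc_s F hw i, not_not]
    exact h
  have h2 := nonneg_of_not_desc F (isW_mul (isW_s i) hw) h1 lam
  have h3 : (C.s i * w) (C.dom lam) i = - (w (C.dom lam) i) := by
    change (C.s i (w (C.dom lam))) i = _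
    rw [s_apply, Pi.sub_apply, Pi.smul_apply, smul_eq_mul]
    unfold Cartan.al
    rw [C.diag]
    ring
  rw [h3] at h2
  constructor
  · have := h2.1
    omega
  · intro hreg
    have := h2.2 hreg
    omega

/-- the stabiliser of a regular weight is trivial -/
theorem stab (F : Family C) {w : C.Aut} (hw : C.IsW w) (lam : C.I → ℕ) (hreg : ∀ j, 0 < lam j)
    (h : w (C.dom lam) = C.dom lam) : w = 1 := by
  obtain ⟨l, hl⟩ := isW_reduced hw
  cases l with
  | nil => exact hl.1.symm
  | cons i l =>
    exfalso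
    have h1 : C.Desc i w := by
      rw [desc_iff F hw, ← hl.1, wprod_cons, s_s_mul]
      have h2 := len_le l
      have h3 := hl.2
      rw [← hl.1, wprod_cons, List.length_cons] at h3
      omega
    have h2 := (nonpos_of_desc F hw h1 lam).2 hreg
    rw [h] at h2
    unfold Cartan.dom at h2
    omega

/-- folding -/
theorem fold_eq (F : Family C) {z : C.Aut} (hz : C.IsW z) (i k : C.I)
    (h1 : C.len (C.s i * z) = C.len z + 1) (h2 : C.len (z * C.s k) = C.len z + 1)
    (h3 : C.len (C.s i * (z * C.s k)) ≤ C.len z) : C.s i * z = z * C.s k := by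
  have hd1 : ¬ C.Desc i z := by
    rw [desc_iff F hz]
    omega
  have hzk : C.IsW (z * C.s k) := isW_mul hz (isW_s k)
  have hd2 : C.Desc i (z * C.s k) := by
    rw [desc_iff F hzk]
    omega
  obtain ⟨l, hl⟩ := isW_inv hz
  have h4 : C.Pos (C.wprod l (C.al i)) := by
    rw [hl]
    exact (pos_or_neg F (isW_inv hz) i).resolve_right hd1
  have h5 : C.Pos (-(C.s k (C.wprod l (C.al i)))) := by
    rw [hl]
    unfold Cartan.Desc at hd2
    rw [mul_inv_rev, s_inv] at hd2
    exact hd2
  have h6 := conj_of_eq l k i (eq_al_of_neg h4 h5)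
  rw [hl] at h6
  have h7 : z * (z⁻¹ * C.s i) * z = z * (C.s k * z⁻¹) * z := by rw [h6]
  have h8 : z * (z⁻¹ * C.s i) * z = C.s i * z := by group
  have h9 : z * (C.s k * z⁻¹) * z = z * C.s k := by group
  rw [h8, h9] at h7
  exact h7

end Pool.Agent.H59.KY
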