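import Pool.Agent.H38.KE.Weyl

/-!
Stripping along reduced words depends only on the Weyl group element; the sets
`{w : b ∈ B_w(λ)}`; Bruhat order.
-/

set_option autoImplicit false

open scoped Classical

namespace Pool.Agent.H59.KY

variable {C : Cartan} (F : Family C)

theorem reduced_one : C.Reduced [] 1 :=
  ⟨rfl, (Nat.le_zero.mp (len_le ([] : List C.I))).symm⟩

theorem len_one : C.len 1 = 0 := (reduced_one (C := C)).2.symm

include F in
theorem reduced_cons {i : C.I} {l : List C.I} {v : C.Aut} (h : C.Reduced (i :: l) v) :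
    C.Reduced l (C.s i * v) ∧ C.Desc i v := by
  have hv : C.IsW v := isW_of_reduced h
  have h1 : C.wprod l = C.s i * v := by
    rw [← h.1, wprod_cons, s_s_mul]
  have h2 : C.len (C.s i * v) ≤ l.length := by
    rw [← h1]
    exact len_le l
  have h3 := h.2
  rw [List.length_cons] at h3
  have h4 := len_s_mul_le (isW_mul (isW_s i) hv) i
  rw [s_s_mul] at h4
  refine ⟨⟨h1, by omega⟩, ?_⟩
  rw [desc_iff F hv]
  omega

include F in
theorem reduced_cons_iff {i : C.I} {l : List C.I} {v : C.Aut} (hd : C.Desc i v)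
    (h : C.Reduced l (C.s i * v)) : C.Reduced (i :: l) v := by
  have hv : C.IsW v := by
    have := isW_mul (isW_s i) (isW_of_reduced h)
    rwa [s_s_mul] at this
  refine ⟨?_, ?_⟩
  · rw [wprod_cons, h.1, s_s_mul]
  · rw [List.length_cons, h.2, len_desc F hv hd]

include F in
theorem exists_reduced_cons {i : C.I} {v : C.Aut} (hv : C.IsW v) (hd : C.Desc i v) :
    ∃ l, C.Reduced (i :: l) v := by
  obtain ⟨l, hl⟩ := isW_reduced (isW_mul (isW_s i) hv)
  exact ⟨l, reduced_cons_iff F hd hl⟩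

/-- data of an extremal element -/
theorem ext_data (nu : C.I → ℕ) (hreg : ∀ j, 0 < nu j) {v : C.Aut} (hv : C.IsW v)
    (u : (F.B nu).B) (hu : (F.B nu).wt u = v (C.dom nu)) (i : C.I) :
    (C.Desc i v → (F.B nu).phi i u = 0 ∧ (F.B nu).wt ((F.B nu).emax i u) =
      (C.s i * v) (C.dom nu)) ∧
    (¬ C.Desc i v → (F.B nu).eps i u = 0) := by
  obtain ⟨l0, hl0⟩ := hv
  have hv : C.IsW v := ⟨l0, hl0⟩
  have h1 := extremal F nu l0 u (by rw [hu, hl0]) i
  have h2 := (F.B nu).phi_eps i u
  constructor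
  · intro hd
    have h3 := (nonpos_of_desc F hv hd nu).2 hreg
    rw [← hu] at h3
    have h4 : (F.B nu).phi i u = 0 := by omega
    refine ⟨h4, ?_⟩
    rw [(F.B nu).wt_emax]
    change _ = C.s i (v (C.dom nu))
    rw [s_apply, ← hu]
    have h5 : ((F.B nu).eps i u : ℤ) = - (F.B nu).wt u i := by omega
    rw [h5, neg_smul, sub_eq_add_neg]
  · intro hd
    have h3 := (nonneg_of_not_desc F hv hd nu).2 hreg
    rw [← hu] at h3
    omega

theorem strip_pair (lam nu : C.I → ℕ) (hreg : ∀ j, 0 < nu j) (l : List C.I) :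
    ∀ (v : C.Aut), C.Reduced l v → ∀ (b : (F.B lam).B) (u : (F.B nu).B),
      (F.B nu).wt u = v (C.dom nu) →
      (F.T lam nu).strip l (b, u) = ((F.B lam).strip l b, F.hw nu) := by
  induction l with
  | nil =>
    intro v hv b u hu
    have h1 : v = 1 := hv.1.symm
    rw [h1] at hu
    have h2 := hw_of_wt F nu u hu
    rw [h2]
    rfl
  | cons i l ih =>
    intro v hv b u hu
    obtain ⟨h1, hd⟩ := reduced_cons F hv
    have h2 := (ext_data F nu hreg (isW_of_reduced hv) u hu i).1 hd
    have h3 := Crystal.emax_tensor (F.B lam) (F.B nu) i b u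
    rw [h2.1, Nat.sub_zero] at h3
    change (F.T lam nu).strip l ((F.T lam nu).emax i (b, u)) = _
    rw [h3]
    exact ih _ h1 _ _ h2.2

/-- extremal elements are stripped along reduced words -/
theorem str_ext (nu : C.I → ℕ) (hreg : ∀ j, 0 < nu j) {l : List C.I} {v : C.Aut}
    (hl : C.Reduced l v) (u : (F.B nu).B) (hu : (F.B nu).wt u = v (C.dom nu)) :
    F.Str nu l u := by
  induction l generalizing v u with
  | nil =>
    have h1 : v = 1 := hl.1.symm
    rw [h1] at hu
    exact hw_of_wt F nu u hu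
  | cons i l ih =>
    obtain ⟨h1, hd⟩ := reduced_cons F hl
    have h2 := (ext_data F nu hreg (isW_of_reduced hl) u hu i).1 hd
    exact ih h1 _ h2.2

/-- a component of the tensor product has one highest weight element -/
theorem strip_unique (lam nu : C.I → ℕ) (x : (F.T lam nu).B) (l l' : List C.I)
    (h : ∀ i, (F.T lam nu).e i ((F.T lam nu).strip l x) = none)
    (h' : ∀ i, (F.T lam nu).e i ((F.T lam nu).strip l' x) = none) :
    (F.T lam nu).strip l x = (F.T lam nu).strip l' x := by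
  obtain ⟨ka, g, t, rfl⟩ := component F lam nu x
  have key : ∀ m : List C.I, (∀ i, (F.T lam nu).e i ((F.T lam nu).strip m (g.map t)) = none) →
      (F.T lam nu).strip m (g.map t) = g.map (F.hw ka) := by
    intro m hm
    rw [g.strip_map] at hm ⊢
    have h1 : (F.B ka).strip m t = F.hw ka := by
      apply hw_unique
      intro i
      have h2 := hm i
      rw [g.map_e] at h2
      exact Option.map_eq_none_iff.mp h2
    rw [h1]
  rw [key l h, key l' h']

theorem strip_indep (lam : C.I → ℕ) (b : (F.B lam).B) {l l' : List C.I} {v : C.Aut}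
    (h : C.Reduced l v) (h' : C.Reduced l' v) :
    (F.B lam).strip l b = (F.B lam).strip l' b := by
  set nu : C.I → ℕ := fun j => 1 + (F.B lam).eps j ((F.B lam).strip l b) +
    (F.B lam).eps j ((F.B lam).strip l' b) with hnu
  have hreg : ∀ j, 0 < nu j := fun j => by simp only [hnu]; omega
  obtain ⟨u, hu⟩ := exists_wt_wprod F nu (F.hw nu) l
  rw [wt_hw_eq, h.1] at hu
  have h1 := strip_pair F lam nu hreg l v h b u hu
  have h2 := strip_pair F lam nu hreg l' v h' b u hu
  have h3 := strip_unique F lam nu (b, u) l l' (by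
    rw [h1]
    exact (tensor_hw F lam nu _ _).mpr ⟨rfl, fun i => by simp only [hnu]; omega⟩) (by
    rw [h2]
    exact (tensor_hw F lam nu _ _).mpr ⟨rfl, fun i => by simp only [hnu]; omega⟩)
  rw [h1, h2] at h3
  exact (Prod.mk.inj h3).1

/-- `b ∈ B_w(λ)` -/
def Family.In (lam : C.I → ℕ) (b : (F.B lam).B) (w : C.Aut) : Prop :=
  ∃ l, C.Reduced l w ∧ F.Str lam l b

theorem in_iff {lam : C.I → ℕ} {b : (F.B lam).B} {l : List C.I} {w : C.Aut}
    (h : C.Reduced l w) : F.In lam b w ↔ F.Str lam l b := by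
  constructor
  · rintro ⟨l', h1, h2⟩
    unfold Family.Str at h2 ⊢
    rw [strip_indep F lam b h h1, h2]
  · intro h1
    exact ⟨l, h, h1⟩

theorem in_isW {lam : C.I → ℕ} {b : (F.B lam).B} {w : C.Aut} (h : F.In lam b w) : C.IsW w := by
  obtain ⟨l, h1, -⟩ := h
  exact isW_of_reduced h1

theorem mem_DemW_iff (lam : C.I → ℕ) (b : (F.B lam).B) (w : C.Aut) :
    b ∈ F.DemW lam w ↔ F.In lam b w := by
  unfold Family.DemW Family.In
  simp only [Set.mem_setOf_eq, mem_Dem_iff]

theorem In_Th {lam mu : C.I → ℕ} {c : (F.B mu).B} {b : (F.B lam).B} (h : F.Th lam mu c b)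
    (w : C.Aut) : F.In lam b w ↔ F.In mu c w⁻¹ := by
  rw [← mem_DemW_iff, ← mem_DemW_iff]
  exact DemW_iff F h w

theorem in_emax {lam : C.I → ℕ} {b : (F.B lam).B} {w : C.Aut} (j : C.I) (h : F.In lam b w) :
    F.In lam ((F.B lam).emax j b) w := by
  obtain ⟨l, h1, h2⟩ := h
  exact ⟨l, h1, Str_emax F lam l b j h2⟩

theorem in_desc {lam : C.I → ℕ} {b : (F.B lam).B} {w : C.Aut} {j : C.I} (hw : C.IsW w)
    (hd : C.Desc j w) : F.In lam b w ↔ F.In lam ((F.B lam).emax j b) (C.s j * w) := by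
  obtain ⟨l, hl⟩ := exists_reduced_cons F hw hd
  rw [in_iff F hl, in_iff F (reduced_cons F hl).1]
  rfl

theorem emax_emax (X : Crystal C) (j : C.I) (b : X.B) : X.emax j (X.emax j b) = X.emax j b :=
  X.emax_none j _ (X.e_emax j b)

/-- Demazure product with a simple reflection -/
noncomputable def Cartan.upw (C : Cartan) (j : C.I) (x : C.Aut) : C.Aut :=
  if C.Desc j x then x else C.s j * x

theorem upw_isW {x : C.Aut} (hx : C.IsW x) (j : C.I) : C.IsW (C.upw j x) := by
  unfold Cartan.upw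
  split_ifs
  · exact hx
  · exact isW_mul (isW_s j) hx

include F in
theorem upw_len {x : C.Aut} (hx : C.IsW x) (j : C.I) : C.len (C.upw j x) ≤ C.len x + 1 := by
  unfold Cartan.upw
  split_ifs with h
  · omega
  · rw [len_not_desc F hx h]

theorem in_upw {lam : C.I → ℕ} {b : (F.B lam).B} {x : C.Aut} (j : C.I)
    (h : F.In lam ((F.B lam).emax j b) x) : F.In lam b (C.upw j x) := by
  have hx := in_isW F h
  unfold Cartan.upw
  split_ifs with hd
  · rw [in_desc F hx hd] at h ⊢
    rwa [emax_emax] at h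
  · rw [in_desc F (isW_mul (isW_s j) hx) ((desc_s F hx j).mpr hd), s_s_mul]
    exact h

theorem in_of_str {lam : C.I → ℕ} (l : List C.I) : ∀ (b : (F.B lam).B), F.Str lam l b →
    ∃ w, C.len w ≤ l.length ∧ F.In lam b w := by
  induction l with
  | nil =>
    intro b h
    exact ⟨1, by rw [len_one]; exact Nat.zero_le _, [], reduced_one, h⟩
  | cons i l ih =>
    intro b h
    obtain ⟨w, h1, h2⟩ := ih _ h
    refine ⟨C.upw i w, ?_, in_upw F i h2⟩
    have := upw_len F (in_isW F h2) i
    rw [List.length_cons]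
    omega

theorem exists_in (lam : C.I → ℕ) (b : (F.B lam).B) : ∃ w, F.In lam b w := by
  obtain ⟨l, hl⟩ := F.gen lam b
  have h1 : b ∈ F.Dem lam l := by
    clear * - hl
    induction l generalizing b with
    | nil =>
      have h0 : F.hw lam = b := Option.some.inj hl
      rw [← h0]
      exact rfl
    | cons i l ih =>
      have h0 : ((F.B lam).fword l (F.hw lam)).bind ((F.B lam).f i) = some b := hl
      rw [Option.bind_eq_some_iff] at h0
      obtain ⟨b1, h2, h3⟩ := h0
      refine ⟨b1, ih b1 h2, 1, ?_⟩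
      change ((F.B lam).fword [] b1).bind ((F.B lam).f i) = some b
      exact h3
  rw [mem_Dem_iff] at h1
  obtain ⟨w, -, h2⟩ := in_of_str F l b h1
  exact ⟨w, h2⟩

theorem Dem_sublist (lam : C.I → ℕ) {m' m : List C.I} (h : m'.Sublist m) :
    F.Dem lam m' ⊆ F.Dem lam m := by
  induction h with
  | slnil => exact subset_rfl
  | cons a _ ih =>
    intro b hb
    exact ⟨b, ih hb, 0, rfl⟩
  | cons_cons a _ ih =>
    rintro b ⟨x, hx, n, hn⟩
    exact ⟨x, ih hx, n, hn⟩

theorem Str_sublist (lam : C.I → ℕ) {m' m : List C.I} (h : m'.Sublist m) {b : (F.B lam).B}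
    (hb : F.Str lam m' b) : F.Str lam m b := by
  rw [← mem_Dem_iff] at hb ⊢
  exact Dem_sublist F lam h hb

/-- Bruhat order -/
def Cartan.Le (C : Cartan) (x v : C.Aut) : Prop :=
  ∃ m m', C.Reduced m v ∧ C.Reduced m' x ∧ m'.Sublist m

/-- an extremal element stripped along a word -/
theorem ext_strip (nu : C.I → ℕ) (hreg : ∀ j, 0 < nu j) (m : List C.I) :
    ∀ (x : C.Aut), C.IsW x → ∀ u : (F.B nu).B, (F.B nu).wt u = x (C.dom nu) →
      F.Str nu m u → ∃ m', m'.Sublist m ∧ C.Reduced m' x := by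
  induction m with
  | nil =>
    intro x hx u hu h
    have h1 : u = F.hw nu := h
    rw [h1, wt_hw_eq] at hu
    have h2 := stab F hx nu hreg hu.symm
    rw [h2]
    exact ⟨[], List.Sublist.slnil, reduced_one⟩
  | cons i m ih =>
    intro x hx u hu h
    have h0 : F.Str nu m ((F.B nu).emax i u) := h
    by_cases hd : C.Desc i x
    · have h1 := (ext_data F nu hreg hx u hu i).1 hd
      obtain ⟨m', h2, h3⟩ := ih _ (isW_mul (isW_s i) hx) _ h1.2 h0
      exact ⟨i :: m', h2.cons_cons i, reduced_cons_iff F hd h3⟩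
    · have h1 := (ext_data F nu hreg hx u hu i).2 hd
      have h2 : (F.B nu).e i u = none := by
        by_contra hcon
        obtain ⟨b', hb'⟩ := Option.ne_none_iff_exists'.mp hcon
        have := (F.B nu).eps_some i _ _ hb'
        omega
      rw [(F.B nu).emax_none i u h2] at h0
      obtain ⟨m', h3, h4⟩ := ih x hx u hu h0
      exact ⟨m', h3.cons i, h4⟩

theorem in_mono {lam : C.I → ℕ} {b : (F.B lam).B} {x v : C.Aut} (h : C.Le x v)
    (hb : F.In lam b x) : F.In lam b v := by
  obtain ⟨m, m', h1, h2, h3⟩ := h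
  rw [in_iff F h2] at hb
  exact ⟨m, h1, Str_sublist F lam h3 hb⟩

include F in
/-- the subword property for every reduced word -/
theorem le_word {x v : C.Aut} (h : C.Le x v) {m : List C.I} (hm : C.Reduced m v) :
    ∃ m', m'.Sublist m ∧ C.Reduced m' x := by
  obtain ⟨m1, m1', h1, h2, h3⟩ := h
  obtain ⟨u, hu⟩ := exists_wt_wprod F (fun _ => 1) (F.hw (fun _ => 1)) m1'
  rw [wt_hw_eq, h2.1] at hu
  have h4 := str_ext F (fun _ => 1) (fun _ => Nat.one_pos) h2 u hu
  have h5 : F.In (fun _ => 1) u v := in_mono F ⟨m1, m1', h1, h2, h3⟩ ⟨m1', h2, h4⟩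
  rw [in_iff F hm] at h5
  exact ext_strip F (fun _ => 1) (fun _ => Nat.one_pos) m x (isW_of_reduced h2) u hu h5

include F in
theorem le_trans' {x v w : C.Aut} (h : C.Le x v) (h' : C.Le v w) : C.Le x w := by
  obtain ⟨m, m', h1, h2, h3⟩ := h'
  obtain ⟨m'', h4, h5⟩ := le_word F h h2
  exact ⟨m, m'', h1, h5, h4.trans h3⟩

theorem le_len {x v : C.Aut} (h : C.Le x v) : C.len x ≤ C.len v := by
  obtain ⟨m, m', h1, h2, h3⟩ := h
  rw [← h1.2, ← h2.2]
  exact h3.length_le

theorem le_eq {x v : C.Aut} (h : C.Le x v) (hl : C.len v ≤ C.len x) : x = v := by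
  obtain ⟨m, m', h1, h2, h3⟩ := h
  have h4 : m' = m := h3.eq_of_length (by
    have := h3.length_le
    have h5 := h1.2
    have h6 := h2.2
    omega)
  rw [← h1.1, ← h2.1, h4]

theorem le_refl' {x : C.Aut} (h : C.IsW x) : C.Le x x := by
  obtain ⟨m, hm⟩ := isW_reduced h
  exact ⟨m, m, hm, hm, List.Sublist.refl m⟩

theorem le_inv {x v : C.Aut} (h : C.Le x v) : C.Le x⁻¹ v⁻¹ := by
  obtain ⟨m, m', h1, h2, h3⟩ := h
  exact ⟨m.reverse, m'.reverse, reduced_reverse h1, reduced_reverse h2, h3.reverse⟩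

include F in
theorem le_s {v : C.Aut} (hv : C.IsW v) {j : C.I} (hd : C.Desc j v) : C.Le (C.s j * v) v := by
  obtain ⟨m, hm⟩ := exists_reduced_cons F hv hd
  exact ⟨j :: m, m, hm, (reduced_cons F hm).1, List.sublist_cons_self j m⟩

include F in
/-- lifting -/
theorem le_lift {x v : C.Aut} {j : C.I} (hv : C.IsW v) (hx : C.IsW x) (h : C.Le x v)
    (hd : C.Desc j v) : C.Le (C.s j * x) v := by
  by_cases hdx : C.Desc j x
  · exact le_trans' F (le_s F hx hdx) h
  · obtain ⟨m, hm⟩ := exists_reduced_cons F hv hd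
    obtain ⟨m', h1, h2⟩ := le_word F h hm
    have h3 : m'.Sublist m := by
      cases h1 with
      | cons _ h => exact h
      | cons_cons _ h => exact absurd (reduced_cons F h2).2 hdx
    refine ⟨j :: m, j :: m', hm, ?_, h3.cons_cons j⟩
    apply reduced_cons_iff F ((desc_s F hx j).mpr hdx)
    rw [s_s_mul]
    exact h2

include F in
theorem le_upw {x v : C.Aut} {j : C.I} (hv : C.IsW v) (hx : C.IsW x) (h : C.Le x v)
    (hd : C.Desc j v) : C.Le (C.upw j x) v := by
  unfold Cartan.upw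
  split_ifs
  · exact h
  · exact le_lift F hv hx h hd

end Pool.Agent.H59.KY
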